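import Pool.Agent.Helper4.T7.LB
import Pool.Agent.Helper76.Q7P5.Ub
import Pool.Agent.Helper83.T7C.Asm5

/-!
# Project T7: the cores for levels `7·5^n`
-/

set_option autoImplicit false

namespace Pool.Agent.Helper4.T7

open Pool.Agent.Helper83.T7C (CoreH CoreV UBH core5Q core52Q)

/-- The upper bound with the dimensions of the lower bound. -/
theorem ubQ5 : UBH 5 ddQ := Pool.Agent.Helper76.Q7P5.ub57

/-- The core for levels `7·5^n`, `n ≥ 3`. -/
theorem coreQ5 : CoreH 5 := core5Q ddQ ubQ5 lbQ5

/-- The core for level `175`. -/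
theorem coreVQ52 : CoreV 5 2 := core52Q ddQ lbQ5

end Pool.Agent.Helper4.T7
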