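import Pool.Agent.Helper93.TLE.Gen
import Pool.Agent.Helper28.T7.Defs

/-!
# Rows of Hecke operators from lists, any number of basic paths (project T7; text copy of `Helper4/TK/GenN.lean`)

`E u v G x` is the value of `G` on the path from `g v` to `g u` (`x` the plane coordinates of `g`), `tr a b c d` the translation by `(a pb·b; pc·c d)`. `ChkN` is a decidable condition on a list `TT` of
pairs (basic path `(w, z)` from `z` to `w`, term) which implies that `TT` is the row of the Hecke operator `T_l` for the path from `v` to `u`.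
-/

set_option autoImplicit false

namespace Pool.Agent.Helper4.T7

open Pool.Agent.Helper14.CV (Homog EqC act Tl)
open Pool.Agent.Helper93.TLE (dz dz_sum dls sum_filter_one T5)
open Pool.Agent.Helper28.T7 (HTy)

instance (a b c d : ℤ) : Decidable (HTy a b c d) := by unfold HTy; infer_instance

/-- A basic path `(w1, w2, z1, z2)` from `z` to `w`. -/
abbrev B4 : Type := ℤ × ℤ × ℤ × ℤ

/-- `l` divides `δ m`, `δ = (δ1 pb·δ2; 0 δ3)`, `m = (a pb·b; pc·c d)`. -/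
def mcls (pb pc l : ℤ) (δ : ℤ × ℤ × ℤ) (t : T5) : Prop :=
  l ∣ δ.1 * t.2.1 + pb * pc * δ.2.1 * t.2.2.2.1 ∧ l ∣ δ.1 * t.2.2.1 + δ.2.1 * t.2.2.2.2 ∧
    l ∣ δ.2.2 * t.2.2.2.1 ∧ l ∣ δ.2.2 * t.2.2.2.2

instance (pb pc l : ℤ) (δ : ℤ × ℤ × ℤ) (t : T5) : Decidable (mcls pb pc l δ t) := by
  unfold mcls; infer_instance

/-- The entry `a` of `γ = δ m / l`. -/
def na (pb pc l : ℤ) (δ : ℤ × ℤ × ℤ) (t : T5) : ℤ :=
  (δ.1 * t.2.1 + pb * pc * δ.2.1 * t.2.2.2.1) / l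

/-- The entry `b` of `γ = (a pb·b; pc·c d)`. -/
def nb (l : ℤ) (δ : ℤ × ℤ × ℤ) (t : T5) : ℤ := (δ.1 * t.2.2.1 + δ.2.1 * t.2.2.2.2) / l

/-- The entry `c` of `γ = (a pb·b; pc·c d)`. -/
def nc (l : ℤ) (δ : ℤ × ℤ × ℤ) (t : T5) : ℤ := (δ.2.2 * t.2.2.2.1) / l

/-- The entry `d` of `γ`. -/
def nd (l : ℤ) (δ : ℤ × ℤ × ℤ) (t : T5) : ℤ := (δ.2.2 * t.2.2.2.2) / l

/-- The cusps of the terms of a list for `δ`. -/
def cuspN (pb pc l : ℤ) (δ : ℤ × ℤ × ℤ) (TT : List (B4 × T5)) : List (ℤ × ℤ × ℤ) :=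
  (TT.filter fun t => mcls pb pc l δ t.2).flatMap fun t =>
    [(-t.2.1, na pb pc l δ t.2 * t.1.1 + pb * nb l δ t.2 * t.1.2.1,
        pc * nc l δ t.2 * t.1.1 + nd l δ t.2 * t.1.2.1),
      (t.2.1, na pb pc l δ t.2 * t.1.2.2.1 + pb * nb l δ t.2 * t.1.2.2.2,
        pc * nc l δ t.2 * t.1.2.2.1 + nd l δ t.2 * t.1.2.2.2)]

/-- The check. -/
def ChkN (pb pc l : ℤ) (J : List ℤ) (u1 u2 v1 v2 : ℤ) (TT : List (B4 × T5)) : Prop :=
  (∀ t ∈ TT, ((dls l J).filter fun δ => mcls pb pc l δ t.2).length = 1) ∧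
  (∀ t ∈ TT, (t.1.1 ≠ 0 ∨ t.1.2.1 ≠ 0) ∧ (t.1.2.2.1 ≠ 0 ∨ t.1.2.2.2 ≠ 0)) ∧
  (∀ δ ∈ dls l J, (∀ t ∈ TT, mcls pb pc l δ t.2 →
    HTy (na pb pc l δ t.2) (pb * nb l δ t.2) (pc * nc l δ t.2) (nd l δ t.2)) ∧
    dz ((1, δ.1 * u1 + pb * δ.2.1 * u2, δ.2.2 * u2) ::
      (-1, δ.1 * v1 + pb * δ.2.1 * v2, δ.2.2 * v2) :: cuspN pb pc l δ TT))

instance (pb pc l : ℤ) (J : List ℤ) (u1 u2 v1 v2 : ℤ) (TT : List (B4 × T5)) :
    Decidable (ChkN pb pc l J u1 u2 v1 v2 TT) := by unfold ChkN; infer_instance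

section

variable {R X : Type} [AddCommGroup R]

/-- The value of the cusps of a list. -/
theorem cuspN_sum (pb pc l : ℤ) (δ : ℤ × ℤ × ℤ) (TT : List (B4 × T5)) (G : ℤ → ℤ → R) :
    ((cuspN pb pc l δ TT).map fun t => t.1 • G t.2.1 t.2.2).sum =
      -(((TT.filter fun t => mcls pb pc l δ t.2).map fun t => t.2.1 •
        (G (na pb pc l δ t.2 * t.1.1 + pb * nb l δ t.2 * t.1.2.1)
            (pc * nc l δ t.2 * t.1.1 + nd l δ t.2 * t.1.2.1) -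
          G (na pb pc l δ t.2 * t.1.2.2.1 + pb * nb l δ t.2 * t.1.2.2.2)
            (pc * nc l δ t.2 * t.1.2.2.1 + nd l δ t.2 * t.1.2.2.2))).sum) := by
  unfold cuspN
  induction (TT.filter fun t => mcls pb pc l δ t.2) with
  | nil => simp
  | cons t L ih =>
    simp only [List.flatMap_cons, List.map_append, List.sum_append, List.map_cons, List.map_nil,
      List.sum_cons, List.sum_nil, ih, smul_sub, neg_smul, neg_add_rev, neg_sub]
    abel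

/-- One path: the value on the path from `v` to `u` in terms of the translated basic paths. -/
theorem path_rowN (pb pc l : ℤ) (tr : ℤ → ℤ → ℤ → ℤ → (X → R) → X → R)
    (E : ℤ → ℤ → ℤ → ℤ → X → R) (G : ℤ → ℤ → R) (hG : Homog G)
    (hE : ∀ x : X, ∃ s a b c d : ℤ, a * d - b * c ≠ 0 ∧ ∀ u1 u2 v1 v2 : ℤ,
      E u1 u2 v1 v2 x = s • (G (a * u1 + b * u2) (c * u1 + d * u2) -
        G (a * v1 + b * v2) (c * v1 + d * v2)))
    (hT : ∀ a b c d u1 u2 v1 v2 : ℤ, HTy a (pb * b) (pc * c) d → (u1 ≠ 0 ∨ u2 ≠ 0) →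
      (v1 ≠ 0 ∨ v2 ≠ 0) → ∀ x : X,
      E (a * u1 + pb * b * u2) (pc * c * u1 + d * u2) (a * v1 + pb * b * v2)
        (pc * c * v1 + d * v2) x = tr a b c d (E u1 u2 v1 v2) x)
    (δ : ℤ × ℤ × ℤ) (TT : List (B4 × T5)) (u1 u2 v1 v2 : ℤ)
    (hn : ∀ t ∈ TT, (t.1.1 ≠ 0 ∨ t.1.2.1 ≠ 0) ∧ (t.1.2.2.1 ≠ 0 ∨ t.1.2.2.2 ≠ 0))
    (h0 : ∀ t ∈ TT, mcls pb pc l δ t.2 →
      HTy (na pb pc l δ t.2) (pb * nb l δ t.2) (pc * nc l δ t.2) (nd l δ t.2))
    (hz : dz ((1, u1, u2) :: (-1, v1, v2) :: cuspN pb pc l δ TT)) (x : X) :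
    E u1 u2 v1 v2 x =
      ((TT.filter fun t => mcls pb pc l δ t.2).map fun t =>
        t.2.1 • tr (na pb pc l δ t.2) (nb l δ t.2) (nc l δ t.2) (nd l δ t.2)
          (E t.1.1 t.1.2.1 t.1.2.2.1 t.1.2.2.2) x).sum := by
  obtain ⟨s, a, b, c, d, hdet, hs⟩ := hE x
  have hact : Homog (act a b c d G) := hG.act hdet
  have hz' := dz_sum hact _ hz
  simp only [List.map_cons, List.sum_cons, one_smul, neg_one_smul] at hz'
  rw [cuspN_sum] at hz'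
  have main : act a b c d G u1 u2 - act a b c d G v1 v2 =
      ((TT.filter fun t => mcls pb pc l δ t.2).map fun t => t.2.1 •
        (act a b c d G (na pb pc l δ t.2 * t.1.1 + pb * nb l δ t.2 * t.1.2.1)
            (pc * nc l δ t.2 * t.1.1 + nd l δ t.2 * t.1.2.1) -
          act a b c d G (na pb pc l δ t.2 * t.1.2.2.1 + pb * nb l δ t.2 * t.1.2.2.2)
            (pc * nc l δ t.2 * t.1.2.2.1 + nd l δ t.2 * t.1.2.2.2))).sum := by
    rw [← sub_eq_zero, ← hz']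
    abel
  rw [hs]
  show s • (act a b c d G u1 u2 - act a b c d G v1 v2) = _
  rw [main, List.smul_sum, List.map_map]
  congr 1
  refine List.map_congr_left fun t ht => ?_
  have ht' := List.mem_filter.mp ht
  have hc : mcls pb pc l δ t.2 := by simpa using ht'.2
  have e1 := hT _ _ _ _ t.1.1 t.1.2.1 t.1.2.2.1 t.1.2.2.2 (h0 t ht'.1 hc) (hn t ht'.1).1
    (hn t ht'.1).2 x
  rw [hs] at e1
  show s • (t.2.1 • _) = _
  rw [smul_comm, ← e1]
  rfl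

/-- The row of `T_l` from a checked list. -/
theorem row_of_chkN (p pb pc l : ℤ) (hl : l ≠ 0) (hbc : p ∣ pb * pc) (hpl : ¬ p ∣ l)
    (hp1 : ¬ p ∣ 1) (hp3 : ¬ p ∣ 7) (J : List ℤ)
    (tr : ℤ → ℤ → ℤ → ℤ → (X → R) → X → R)
    (htr : ∀ a b c d : ℤ, ∃ φ : X → X, ∀ (F : X → R) (x : X), tr a b c d F x = F (φ x))
    (hM : ∀ (F : X → R) (a b c d a' b' c' d' : ℤ), ¬ p ∣ a → ¬ p ∣ d → ¬ p ∣ a' → ¬ p ∣ d' →
      tr a b c d (tr a' b' c' d' F) =
        tr (a * a' + pb * pc * b * c') (a * b' + b * d') (c * a' + d * c')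
          (pb * pc * c * b' + d * d') F)
    (E : ℤ → ℤ → ℤ → ℤ → X → R) (G : ℤ → ℤ → R) (hG : Homog G)
    (hE : ∀ x : X, ∃ s a b c d : ℤ, a * d - b * c ≠ 0 ∧ ∀ u1 u2 v1 v2 : ℤ,
      E u1 u2 v1 v2 x = s • (G (a * u1 + b * u2) (c * u1 + d * u2) -
        G (a * v1 + b * v2) (c * v1 + d * v2)))
    (hT : ∀ a b c d u1 u2 v1 v2 : ℤ, HTy a (pb * b) (pc * c) d → (u1 ≠ 0 ∨ u2 ≠ 0) →
      (v1 ≠ 0 ∨ v2 ≠ 0) → ∀ x : X,
      E (a * u1 + pb * b * u2) (pc * c * u1 + d * u2) (a * v1 + pb * b * v2)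
        (pc * c * v1 + d * v2) x = tr a b c d (E u1 u2 v1 v2) x)
    (u1 u2 v1 v2 : ℤ) (TT : List (B4 × T5)) (hc : ChkN pb pc l J u1 u2 v1 v2 TT) (V : R) (x : X)
    (hV : V = tr 1 0 0 l (E (l * u1) u2 (l * v1) v2) x +
      (J.map fun j => tr l (-j) 0 1
        (E (u1 + pb * j * u2) (l * u2) (v1 + pb * j * v2) (l * v2)) x).sum) :
    V = (TT.map fun t => t.2.1 • tr t.2.2.1 t.2.2.2.1 t.2.2.2.2.1 t.2.2.2.2.2
      (E t.1.1 t.1.2.1 t.1.2.2.1 t.1.2.2.2) x).sum := by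
  obtain ⟨hc0, hcn, hc2⟩ := hc
  have e1' : V = ((dls l J).map fun δ => tr δ.2.2 (-δ.2.1) 0 δ.1
      (E (δ.1 * u1 + pb * δ.2.1 * u2) (δ.2.2 * u2) (δ.1 * v1 + pb * δ.2.1 * v2) (δ.2.2 * v2))
        x).sum := by
    rw [hV]
    unfold dls
    simp only [List.map_cons, List.sum_cons, List.map_map]
    congr 1
    · simp only [neg_zero, zero_mul, mul_zero, add_zero, one_mul]
    · congr 1
      refine List.map_congr_left fun j _ => ?_
      simp only [Function.comp_apply, one_mul]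
  have step : ∀ δ ∈ dls l J, tr δ.2.2 (-δ.2.1) 0 δ.1
      (E (δ.1 * u1 + pb * δ.2.1 * u2) (δ.2.2 * u2) (δ.1 * v1 + pb * δ.2.1 * v2) (δ.2.2 * v2)) x =
      ((TT.filter fun t => mcls pb pc l δ t.2).map fun t =>
        t.2.1 • tr t.2.2.1 t.2.2.2.1 t.2.2.2.2.1 t.2.2.2.2.2
          (E t.1.1 t.1.2.1 t.1.2.2.1 t.1.2.2.2) x).sum := by
    intro δ hδ
    obtain ⟨h0, hz⟩ := hc2 δ hδ
    have hδ' : (¬ p ∣ δ.1 ∧ ¬ p ∣ δ.2.2) ∧ δ.1 * δ.2.2 = l := by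
      unfold dls at hδ
      rcases List.mem_cons.mp hδ with rfl | hδ
      · exact ⟨⟨hpl, hp1⟩, mul_one _⟩
      · obtain ⟨j, _, rfl⟩ := List.mem_map.mp hδ
        exact ⟨⟨hp1, hpl⟩, one_mul _⟩
    obtain ⟨φ, hφ⟩ := htr δ.2.2 (-δ.2.1) 0 δ.1
    rw [hφ, path_rowN pb pc l tr E G hG hE hT δ TT _ _ _ _ hcn h0 hz (φ x)]
    congr 1
    refine List.map_congr_left fun t ht => ?_
    have ht' := List.mem_filter.mp ht
    have hcl : mcls pb pc l δ t.2 := by simpa using ht'.2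
    have hdet := h0 t ht'.1 hcl
    obtain ⟨d1, d2, d3, d4⟩ := hcl
    obtain ⟨ww, kk, ta, tb, tc, td⟩ := t
    simp only at d1 d2 d3 d4
    have ea : l * na pb pc l δ (kk, ta, tb, tc, td) = δ.1 * ta + pb * pc * δ.2.1 * tc :=
      Int.mul_ediv_cancel' d1
    have eb : l * nb l δ (kk, ta, tb, tc, td) = δ.1 * tb + δ.2.1 * td := Int.mul_ediv_cancel' d2
    have ec : l * nc l δ (kk, ta, tb, tc, td) = δ.2.2 * tc := Int.mul_ediv_cancel' d3
    have ed : l * nd l δ (kk, ta, tb, tc, td) = δ.2.2 * td := Int.mul_ediv_cancel' d4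
    obtain ⟨k1, hk1⟩ := hbc
    have hX : ∀ A B C D : ℤ, HTy A (pb * B) (pc * C) D → ¬ p ∣ A ∧ ¬ p ∣ D := by
      intro A B C D h
      have h3 : ∀ e : ℤ, A * D - pb * B * (pc * C) = e → ¬ p ∣ e → ¬ p ∣ A ∧ ¬ p ∣ D := by
        intro e he hne
        have hb : pb * B * (pc * C) = p * (k1 * B * C) := by
          linear_combination B * C * hk1
        constructor
        · intro hA
          exact hne (by rw [← he, hb]; exact dvd_sub (Dvd.dvd.mul_right hA _) (Dvd.intro _ rfl))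
        · intro hD
          exact hne (by rw [← he, hb]; exact dvd_sub (Dvd.dvd.mul_left hD _) (Dvd.intro _ rfl))
      rcases h with h | h
      · exact h3 1 h.1 hp1
      · exact h3 7 h.1 hp3
    obtain ⟨ha, hd⟩ := hX _ _ _ _ hdet
    congr 1
    rw [← hφ (tr _ _ _ _ _) x, hM _ _ _ _ _ _ _ _ _ hδ'.1.2 hδ'.1.1 ha hd]
    have f1 : δ.2.2 * na pb pc l δ (kk, ta, tb, tc, td) +
        pb * pc * -δ.2.1 * nc l δ (kk, ta, tb, tc, td) = ta := by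
      apply mul_left_cancel₀ hl
      linear_combination δ.2.2 * ea - pb * pc * δ.2.1 * ec + ta * hδ'.2
    have f2 : δ.2.2 * nb l δ (kk, ta, tb, tc, td) + -δ.2.1 * nd l δ (kk, ta, tb, tc, td) = tb := by
      apply mul_left_cancel₀ hl
      linear_combination δ.2.2 * eb - δ.2.1 * ed + tb * hδ'.2
    have f3 : 0 * na pb pc l δ (kk, ta, tb, tc, td) + δ.1 * nc l δ (kk, ta, tb, tc, td) = tc := by
      apply mul_left_cancel₀ hl
      linear_combination δ.1 * ec + tc * hδ'.2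
    have f4 : pb * pc * 0 * nb l δ (kk, ta, tb, tc, td) +
        δ.1 * nd l δ (kk, ta, tb, tc, td) = td := by
      apply mul_left_cancel₀ hl
      linear_combination δ.1 * ed + td * hδ'.2
    rw [f1, f2, f3, f4]
  rw [e1', List.map_congr_left step, sum_filter_one _ _ _ hc0]

end

end Pool.Agent.Helper4.T7
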