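import Pool.Agent.Helper4.T7.StD
import Pool.Agent.Helper4.T7.GenN

/-!
# Project T7: the row of a Hecke operator from a check

Model: `Pool/Agent/Helper14/TH7/HkCore.lean`.
-/

set_option autoImplicit false
set_option maxRecDepth 100000

namespace Pool.Agent.Helper4.T7

open Pool.Agent.Helper14.CV (Homog EqC act Tl)
open Pool.Agent.Helper28.T7 (HTy SymH)
open Pool.Agent.Helper14.W5 (tr5 Fn5 Tm opL op5 S5Trm)

private theorem opL_apply5 (L : List Tm) {q q' : ℕ} (F : Fn5 q q') (x : ZMod q) (y : ZMod q') :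
    opL L F x y = (L.map fun t => t.1 • tr5 t.2.1 t.2.2.1 t.2.2.2.1 t.2.2.2.2 F x y).sum := by
  induction L with
  | nil => simp [opL]
  | cons t L ih =>
    have e : opL (t :: L) F x y = (((t.1 : ℤ) : ZMod 5) • op5 t.2.1 t.2.2.1 t.2.2.2.1 t.2.2.2.2) F x y +
        opL L F x y := by
      simp [opL]
    rw [e, ih, List.map_cons, List.sum_cons, zsmul_eq_mul]
    rfl

/-- The list of the terms with their basic paths -/
def TT5 (L : Fin 5 → List Tm) : List (B4 × Tm) :=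
  ((L 0).map fun t => ((1, 0, 0, 1), t)) ++ ((L 1).map fun t => ((2, 7, 0, 1), t)) ++
    ((L 2).map fun t => ((1, 3, 2, 7), t)) ++ ((L 3).map fun t => ((1, 2, 3, 7), t)) ++
    ((L 4).map fun t => ((2, 3, 4, 7), t))

/-- One row. -/
theorem row5 (hf : THkF) (ht : TTre) (hm : S5Trm) (l : ℕ) (hl : l.Prime) (hl5 : l ≠ 5)
    (hl3 : l ≠ 7) (J : List ℤ) (hJn : J.Nodup) (hJl : J.length = l)
    (hJd : ∀ j ∈ J, ∀ j' ∈ J, (l : ℤ) ∣ j - j' → j = j')
    (u1 u2 v1 v2 : ℤ) (hu : u1 ≠ 0 ∨ u2 ≠ 0) (hv : v1 ≠ 0 ∨ v2 ≠ 0) (L : Fin 5 → List Tm)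
    (hc : ChkN 1 5 l J u1 u2 v1 v2 (TT5 L))
    (r s : ℕ) (G : ℤ → ℤ → ZMod 5) (hG : SymH 5 r (s + 1) G) :
    (edgeQ u1 u2 v1 v2 (Tl l (5 ^ r) G) : Fn5 (5 ^ r) (5 ^ s)) =
      ∑ f : Fin 5, opL (L f) (pfQ G f) := by
  rw [Fin.sum_univ_five]
  funext x y
  have hl0 : (l : ℤ) ≠ 0 := by exact_mod_cast hl.ne_zero
  have hpl : ¬ (5 : ℤ) ∣ (l : ℤ) := by
    intro h
    have h' : (5 : ℕ) ∣ l := by exact_mod_cast h
    exact hl5 (((Nat.prime_dvd_prime_iff_eq (by norm_num) hl).1 h').symm)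
  have hF := hf (ZMod 5) inferInstance r s l G J.toFinset hl hl5 hl3 hG
    (by rw [List.toFinset_card_of_nodup hJn, hJl])
    (fun j hj j' hj' => hJd j (List.mem_toFinset.1 hj) j' (List.mem_toFinset.1 hj'))
    u1 u2 v1 v2 hu hv x y
  rw [List.sum_toFinset _ hJn] at hF
  have key := row_of_chkN (R := ZMod 5) (X := ZMod (5 ^ r) × ZMod (5 ^ s)) 5 1 5 l hl0
    (by norm_num) hpl (by norm_num) (by norm_num) J
    (fun a b c d F z => tr5 a b c d (fun x y => F (x, y)) z.1 z.2)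
    (fun a b c d => ⟨fun z => (((b : ZMod (5 ^ r)) + d * z.1) * ((a : ZMod (5 ^ r)) + 5 * c * z.1)⁻¹,
      ((c : ZMod (5 ^ s)) + a * z.2) * ((d : ZMod (5 ^ s)) + 5 * b * z.2)⁻¹), fun F z => rfl⟩)
    (fun F a b c d a' b' c' d' ha hd ha' hd' => by
      funext z
      have h := (hm (ZMod 5) r s (fun x y => F (x, y))).1 a b c d a' b' c' d' ha hd ha' hd'
      have e1 : (1 : ℤ) * 5 = 5 := by norm_num
      rw [e1]
      exact congrFun (congrFun h z.1) z.2)
    (fun u1 u2 v1 v2 z => edgeQ u1 u2 v1 v2 G z.1 z.2) G hG.1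
    (fun z => ⟨1, 1, (z.1.val : ℤ), 5 * yQ z.1 z.2,
      1 + 5 * (z.1.val : ℤ) * yQ z.1 z.2, by
        have : (1 : ℤ) * (1 + 5 * (z.1.val : ℤ) * yQ z.1 z.2) -
          (z.1.val : ℤ) * (5 * yQ z.1 z.2) = 1 := by ring
        rw [this]; exact one_ne_zero,
      fun u1 u2 v1 v2 => by
        unfold edgeQ
        simp only [one_mul, one_smul, pow_zero]⟩)
    (fun a b c d u1 u2 v1 v2 hd hu hv z => by
      rw [one_mul] at hd
      have h := ht (ZMod 5) inferInstance r s G hG a b c d u1 u2 v1 v2 hd hu hv z.1 z.2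
      simp only [one_mul]
      exact h)
    u1 u2 v1 v2 (TT5 L) hc
    (edgeQ u1 u2 v1 v2 (Tl l (5 ^ r) G) x y) (x, y) (by
      rw [hF]
      simp only [one_mul])
  rw [key]
  show _ = opL (L 0) (pfQ G 0) x y + opL (L 1) (pfQ G 1) x y + opL (L 2) (pfQ G 2) x y +
    opL (L 3) (pfQ G 3) x y + opL (L 4) (pfQ G 4) x y
  rw [opL_apply5, opL_apply5, opL_apply5, opL_apply5, opL_apply5]
  unfold TT5
  rw [List.map_append, List.map_append, List.map_append, List.map_append, List.sum_append,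
    List.sum_append, List.sum_append, List.sum_append, List.map_map, List.map_map, List.map_map,
    List.map_map, List.map_map]
  rfl

end Pool.Agent.Helper4.T7
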