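import Pool.Agent.Helper4.T7.HkCore

/-!
# Project T7: the rows of the Hecke operator `T_17`
-/

set_option autoImplicit false
set_option maxRecDepth 100000

namespace Pool.Agent.Helper4.T7

open Pool.Agent.Helper28.T7 (HTy SymH)
open Pool.Agent.Helper14.CV (Tl)
open Pool.Agent.Helper14.W5 (S5Trm Fn5 opL)

theorem hk17_0 (hf : THkF) (ht : TTre) (hm : S5Trm) (r s : ℕ) (G : ℤ → ℤ → ZMod 5)
    (hG : SymH 5 r (s + 1) G) :
    (edgeQ 1 0 0 1 (Tl 17 (5 ^ r) G) : Fn5 (5 ^ r) (5 ^ s)) = ∑ f : Fin 5, opL (T17Q 0 f) (pfQ G f) :=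
  row5 hf ht hm 17 (by norm_num) (by norm_num) (by norm_num) [-8, -7, -6, -5, -4, -3, -2, -1, 0, 1, 2, 3, 4, 5, 6, 7, 8] (by decide +kernel) rfl
    (by decide +kernel) 1 0 0 1 (Or.inl (by norm_num)) (Or.inr (by norm_num)) (T17Q 0) (by decide +kernel) r s G hG

theorem hk17_1 (hf : THkF) (ht : TTre) (hm : S5Trm) (r s : ℕ) (G : ℤ → ℤ → ZMod 5)
    (hG : SymH 5 r (s + 1) G) :
    (edgeQ 2 7 0 1 (Tl 17 (5 ^ r) G) : Fn5 (5 ^ r) (5 ^ s)) = ∑ f : Fin 5, opL (T17Q 1 f) (pfQ G f) :=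
  row5 hf ht hm 17 (by norm_num) (by norm_num) (by norm_num) [-8, -7, -6, -5, -4, -3, -2, -1, 0, 1, 2, 3, 4, 5, 6, 7, 8] (by decide +kernel) rfl
    (by decide +kernel) 2 7 0 1 (Or.inl (by norm_num)) (Or.inr (by norm_num)) (T17Q 1) (by decide +kernel) r s G hG

theorem hk17_2 (hf : THkF) (ht : TTre) (hm : S5Trm) (r s : ℕ) (G : ℤ → ℤ → ZMod 5)
    (hG : SymH 5 r (s + 1) G) :
    (edgeQ 1 3 2 7 (Tl 17 (5 ^ r) G) : Fn5 (5 ^ r) (5 ^ s)) = ∑ f : Fin 5, opL (T17Q 2 f) (pfQ G f) :=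
  row5 hf ht hm 17 (by norm_num) (by norm_num) (by norm_num) [-8, -7, -6, -5, -4, -3, -2, -1, 0, 1, 2, 3, 4, 5, 6, 7, 8] (by decide +kernel) rfl
    (by decide +kernel) 1 3 2 7 (Or.inl (by norm_num)) (Or.inl (by norm_num)) (T17Q 2) (by decide +kernel) r s G hG

theorem hk17_3 (hf : THkF) (ht : TTre) (hm : S5Trm) (r s : ℕ) (G : ℤ → ℤ → ZMod 5)
    (hG : SymH 5 r (s + 1) G) :
    (edgeQ 1 2 3 7 (Tl 17 (5 ^ r) G) : Fn5 (5 ^ r) (5 ^ s)) = ∑ f : Fin 5, opL (T17Q 3 f) (pfQ G f) :=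
  row5 hf ht hm 17 (by norm_num) (by norm_num) (by norm_num) [-8, -7, -6, -5, -4, -3, -2, -1, 0, 1, 2, 3, 4, 5, 6, 7, 8] (by decide +kernel) rfl
    (by decide +kernel) 1 2 3 7 (Or.inl (by norm_num)) (Or.inl (by norm_num)) (T17Q 3) (by decide +kernel) r s G hG

theorem hk17_4 (hf : THkF) (ht : TTre) (hm : S5Trm) (r s : ℕ) (G : ℤ → ℤ → ZMod 5)
    (hG : SymH 5 r (s + 1) G) :
    (edgeQ 2 3 4 7 (Tl 17 (5 ^ r) G) : Fn5 (5 ^ r) (5 ^ s)) = ∑ f : Fin 5, opL (T17Q 4 f) (pfQ G f) :=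
  row5 hf ht hm 17 (by norm_num) (by norm_num) (by norm_num) [-8, -7, -6, -5, -4, -3, -2, -1, 0, 1, 2, 3, 4, 5, 6, 7, 8] (by decide +kernel) rfl
    (by decide +kernel) 2 3 4 7 (Or.inl (by norm_num)) (Or.inl (by norm_num)) (T17Q 4) (by decide +kernel) r s G hG

/-- HK, `l = 17`. -/
theorem hHk17 (hf : THkF) (ht : TTre) (hm : S5Trm) : THkL 17 T17Q := by
  intro r s G hG i
  fin_cases i
  · exact hk17_0 hf ht hm r s G hG
  · exact hk17_1 hf ht hm r s G hG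
  · exact hk17_2 hf ht hm r s G hG
  · exact hk17_3 hf ht hm r s G hG
  · exact hk17_4 hf ht hm r s G hG

end Pool.Agent.Helper4.T7
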