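import Pool.Agent.Helper4.T7.M_Hk43_0
import Pool.Agent.Helper4.T7.M_Hk43_1
import Pool.Agent.Helper4.T7.M_Hk43_2
import Pool.Agent.Helper4.T7.M_Hk43_3
import Pool.Agent.Helper4.T7.M_Hk43_4

/-!
# Project T7: the rows of the Hecke operator `T_43`
-/

set_option autoImplicit false
set_option maxRecDepth 100000

namespace Pool.Agent.Helper4.T7

open Pool.Agent.Helper28.T7 (HTy SymH)
open Pool.Agent.Helper14.CV (Tl)
open Pool.Agent.Helper14.W5 (S5Trm Fn5 opL)

/-- HK, `l = 43`. -/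
theorem hHk43 (hf : THkF) (ht : TTre) (hm : S5Trm) : THkL 43 T43Q := by
  intro r s G hG i
  fin_cases i
  · exact hk43_0 hf ht hm r s G hG
  · exact hk43_1 hf ht hm r s G hG
  · exact hk43_2 hf ht hm r s G hG
  · exact hk43_3 hf ht hm r s G hG
  · exact hk43_4 hf ht hm r s G hG

end Pool.Agent.Helper4.T7
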