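import Pool.Agent.Helper4.T7.M_CeV
import Pool.Agent.Helper56.T7.M_CeA
import Pool.Agent.Helper4.T7.M_Hk2
import Pool.Agent.Helper4.T7.M_Hk3
import Pool.Agent.Helper4.T7.M_Hk11
import Pool.Agent.Helper4.T7.M_Hk13
import Pool.Agent.Helper4.T7.M_Hk17
import Pool.Agent.Helper4.T7.M_Hk19
import Pool.Agent.Helper4.T7.M_Hk23
import Pool.Agent.Helper4.T7.M_Hk31
import Pool.Agent.Helper4.T7.M_Hk37
import Pool.Agent.Helper4.T7.M_Hk41
import Pool.Agent.Helper4.T7.M_Hk43
import Pool.Agent.Helper75.T7.M_Edg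
import Pool.Agent.Helper8.T7.M_Tre
import Pool.Agent.Helper8.T7.M_Rel
import Pool.Agent.Helper8.T7.M_Rll
import Pool.Agent.Helper2.T7.M_ExA
import Pool.Agent.Helper36.T7.M_ExB
import Pool.Agent.Helper42.T7.M_Uni
import Pool.Agent.Helper69.T7.M_HkB
import Pool.Agent.Helper53.T7.M_HkF
import Pool.Agent.Helper5.T7.M_LdU
import Pool.Agent.Helper85.T7.M_LdV
import Pool.Agent.Helper86.T7.M_Om
import Pool.Agent.Helper53.T7.M_Lw1
import Pool.Agent.Helper89.T7.M_Sur
import Pool.Agent.Helper47.T7.M_Led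
import Pool.Agent.Helper63.T7.M_Stp
import Pool.Agent.Helper51.T7.M_Itr
import Pool.Agent.Helper71.T7.M_Trf
import Pool.Agent.Helper44.T7.M_Tri
import Pool.Agent.Helper40.T7.M_Lifp
import Pool.Agent.Helper9.T7.M_Lif
import Pool.Agent.Helper80.T7.M_Unb
import Pool.Agent.Helper96.T7.M_Cnt
import Pool.Agent.Helper46.T7.M_LBof
import Pool.Agent.Helper83.T7C.Asm
import Pool.Agent.Helper38.CV.M_Far
import Pool.Agent.Helper55.CV.M_Fex
import Pool.Agent.Helper63.W5.M_PlA
import Pool.Agent.Helper16.W5.M_Trm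
import Pool.Agent.Helper7.W5.M_Low0
import Pool.Agent.Helper63.W5.M_Prd
import Pool.Agent.Helper86.W5.M_SubA
import Pool.Agent.Helper36.W5.M_SubB
import Pool.Agent.Helper72.W5.M_Nfa
import Pool.Agent.Helper29.W5.M_Nf
import Pool.Agent.Helper98.W5.M_Exp
import Pool.Agent.Helper81.W5.M_Lw1
import Pool.Agent.Helper32.W5.M_Bb

/-!
# Project T7: the lower bound for levels `7·5^n`, `W_7 = +1`
-/

set_option autoImplicit false

namespace Pool.Agent.Helper4.T7

open Pool.Agent.Helper14.W5 (S5PlA S5Trm S5Low0 S5Nfa S5Nf S5Exp S5Lw1 S5Bb)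
open Pool.Agent.Helper83.T7C (SHHk SHHkS LBH hkQ hksQ)

theorem plQ : TPlQ := hPlQ Pool.Agent.Helper63.W5.hPlA

theorem trm : S5Trm := Pool.Agent.Helper16.W5.hTrm

theorem edgT : TEdg := Pool.Agent.Helper75.T7.hEdg plQ

theorem treT : TTre := Pool.Agent.Helper8.T7.hTre edgT plQ

theorem relT : TRel := Pool.Agent.Helper8.T7.hRel treT

theorem exT : TEx := hEx (Pool.Agent.Helper2.T7.hExA trm)
  (Pool.Agent.Helper36.T7.hExB plQ Pool.Agent.Helper55.CV.hFex Pool.Agent.Helper38.CV.hFar)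

theorem uniT : TUni := Pool.Agent.Helper42.T7.hUni edgT plQ Pool.Agent.Helper38.CV.hFar

theorem lifpT : TLifp := Pool.Agent.Helper40.T7.hLifp trm

theorem lifT : TLif := Pool.Agent.Helper9.T7.hLif relT lifpT exT uniT

theorem hkBT : THkB := Pool.Agent.Helper69.T7.hHkB hkQ hksQ

theorem hkFT : THkF := Pool.Agent.Helper53.T7.hHkF hkBT edgT plQ

theorem stpT : TStp :=
  Pool.Agent.Helper63.T7.hStp hkBT (hHk2 hkFT treT trm) (hHk3 hkFT treT trm)
    (hHk11 hkFT treT trm) (hHk13 hkFT treT trm) (hHk17 hkFT treT trm) (hHk19 hkFT treT trm)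
    (hHk23 hkFT treT trm) (hHk31 hkFT treT trm) (hHk37 hkFT treT trm) (hHk41 hkFT treT trm)
    (hHk43 hkFT treT trm) trm Pool.Agent.Helper56.T7.hCeG plQ

theorem triT : TTri := by
  have low0 := Pool.Agent.Helper7.W5.hLow0
  have prd := Pool.Agent.Helper63.W5.hPrd
  have subA := Pool.Agent.Helper86.W5.hSubA low0 prd
  have subB := Pool.Agent.Helper36.W5.hSubB low0 prd
  have nfa := Pool.Agent.Helper72.W5.hNfa low0 subA subB
  have nf := Pool.Agent.Helper29.W5.hNf trm low0 nfa subA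
  have exp := Pool.Agent.Helper98.W5.hExp low0 nfa nf
  have lw := Pool.Agent.Helper81.W5.hLw1 low0 nfa nf
  have bb := Pool.Agent.Helper32.W5.hBb
  have lw1 := Pool.Agent.Helper53.T7.hLw1 low0 nfa nf bb
  have rll := Pool.Agent.Helper8.T7.hRll
  have ceG := Pool.Agent.Helper56.T7.hCeG
  have ldU := Pool.Agent.Helper5.T7.hLdU trm low0 nfa exp rll ceG Pool.Agent.Helper56.T7.hCeU
  have ldV := Pool.Agent.Helper85.T7.hLdV trm low0 nfa exp rll ceG hCeV
  have om := Pool.Agent.Helper86.T7.hOm trm low0 rll ceG Pool.Agent.Helper56.T7.hCeO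
  have sur := Pool.Agent.Helper89.T7.hSur trm low0 nfa lw lw1 bb
  have led := Pool.Agent.Helper47.T7.hLed trm low0 nfa lw lw1 bb sur
  have itr := Pool.Agent.Helper51.T7.hItr relT stpT low0 ldU ldV om
  have trf := Pool.Agent.Helper71.T7.hTrf low0 bb
  exact Pool.Agent.Helper44.T7.hTri low0 bb led exT itr trf

theorem cntT : TCnt := Pool.Agent.Helper96.T7.hCnt

/-- The lower bound for levels `7·5^n`. -/
theorem lbQ5 : LBH 5 6 ddQ :=
  Pool.Agent.Helper46.T7.hLBof triT lifT Pool.Agent.Helper80.T7.hUnb cntT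

end Pool.Agent.Helper4.T7
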