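import Pool.Agent.Helper4.T7.StD
import Pool.Agent.Helper81.T7.FastC

/-!
# Project T7: the certificates of `V`, row 1
-/

set_option autoImplicit false
set_option maxRecDepth 100000

namespace Pool.Agent.Helper4.T7

open Pool.Agent.Helper14.W5 (Tm cS M7)

private theorem t0 : Pool.Agent.Helper81.T7.fastC (BVQ 1 0) (fun w a k j => if (1 : Fin 5) = 0 ∧ w = 0 then
    (if (a, k, j) = (1, 0, 5) ∨ (a, k, j) = (5, 0, 1) then 1 else if (a, k, j) = (3, 0, 3) then 2 else 0) else 0) = true := by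
  decide +kernel

private theorem t1 : Pool.Agent.Helper81.T7.fastC (BVQ 1 1) (fun w a k j => if (1 : Fin 5) = 1 ∧ w = 0 then
    (if (a, k, j) = (1, 0, 5) ∨ (a, k, j) = (5, 0, 1) then 1 else if (a, k, j) = (3, 0, 3) then 2 else 0) else 0) = true := by
  decide +kernel

private theorem t2 : Pool.Agent.Helper81.T7.fastC (BVQ 1 2) (fun w a k j => if (1 : Fin 5) = 2 ∧ w = 0 then
    (if (a, k, j) = (1, 0, 5) ∨ (a, k, j) = (5, 0, 1) then 1 else if (a, k, j) = (3, 0, 3) then 2 else 0) else 0) = true := by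
  decide +kernel

private theorem t3 : Pool.Agent.Helper81.T7.fastC (BVQ 1 3) (fun w a k j => if (1 : Fin 5) = 3 ∧ w = 0 then
    (if (a, k, j) = (1, 0, 5) ∨ (a, k, j) = (5, 0, 1) then 1 else if (a, k, j) = (3, 0, 3) then 2 else 0) else 0) = true := by
  decide +kernel

private theorem t4 : Pool.Agent.Helper81.T7.fastC (BVQ 1 4) (fun w a k j => if (1 : Fin 5) = 4 ∧ w = 0 then
    (if (a, k, j) = (1, 0, 5) ∨ (a, k, j) = (5, 0, 1) then 1 else if (a, k, j) = (3, 0, 3) then 2 else 0) else 0) = true := by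
  decide +kernel

theorem ceV1 (f : Fin 5) : ∀ w : Fin 4, ∀ t ∈ M7, (5 : ℤ) ∣ cS (BVQ 1 f) w t.1 t.2.1 t.2.2 -
    (if (1 : Fin 5) = f ∧ w = 0 then (if t = (1, 0, 5) ∨ t = (5, 0, 1) then 1 else if t = (3, 0, 3) then 2 else 0) else 0) := by
  fin_cases f
  · exact Pool.Agent.Helper81.T7.cS_fast _ _ t0
  · exact Pool.Agent.Helper81.T7.cS_fast _ _ t1
  · exact Pool.Agent.Helper81.T7.cS_fast _ _ t2
  · exact Pool.Agent.Helper81.T7.cS_fast _ _ t3
  · exact Pool.Agent.Helper81.T7.cS_fast _ _ t4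

end Pool.Agent.Helper4.T7
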