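import Pool.Agent.Helper4.T7.M_CeV0
import Pool.Agent.Helper4.T7.M_CeV1
import Pool.Agent.Helper4.T7.M_CeV2
import Pool.Agent.Helper4.T7.M_CeV3
import Pool.Agent.Helper4.T7.M_CeV4

/-!
# Project T7: the certificates of `V`
-/

set_option autoImplicit false
set_option maxRecDepth 100000

namespace Pool.Agent.Helper4.T7

open Pool.Agent.Helper14.W5 (Tm cS M7)

/-- CEV. -/
theorem hCeV : TCeV := by
  intro i f
  fin_cases i
  · exact ceV0 f
  · exact ceV1 f
  · exact ceV2 f
  · exact ceV3 f
  · exact ceV4 f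

end Pool.Agent.Helper4.T7
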