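import Pool.Agent.Helper4.T7.Edge
import Pool.Agent.Helper4.T7.Lists
import Pool.Agent.Helper14.W5.StE
import Pool.Agent.Helper83.T7C.StB

/-!
# Project T7 (levels `7·5^n`, `W_7 = +1`): lower bound

Models: `Helper4/TK/StD.lean` (project TK, levels `3·5^n`, proved; modules `Pool/Agent/*/TK/M_*.lean`; assembly `Helper4/TK/LB.lean`) for everything up to the leading forms, and `Helper14/TH7/StD.lean` (levels `2·7^n`, proved; modules `Pool/Agent/*/TH7/M_*.lean`) for the parts with tables of functionals (STP, OM, ITR, TRF, TRI, LIF, UNB, CNT, LB).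
The operator calculus on plane functions (`tr5`, `op5`, `opL`, `mulL`, `Wd5`, `Lw`, `cS`, `M7`, `nS`, `bb5`, and the proved statements `S5Trm, S5Low0, S5Nfa, S5Nf, S5Exp, S5Lw1, S5Bb, S5PlA`) is the one of W5, unchanged. The group: `HTy` of `Helper28/T7/Defs.lean`, determinant one with `7 ∣ c`, or determinant seven with `a`, `c`, `d` divisible by seven.
GEOMETRY. `Γ₀(7)+` is generated by `S = (0 -1; 7 0)` (exchanges `0`, `∞`), `S' = (7 -4; 14 -7)` (exchanges `∞`, `1/2`; `0 → 4/7`) and `γ = (3 -1; 7 -2)` of order three (`0 → 1/2 → 1/3 → 0`, `∞ → 3/7 → 2/7`). The subgroup with `5 ∣ c` is free of rank five; fundamental 10-gon with vertices `∞, 0, 2/7, 1/3, 3/7, 1/2, 4/7, 2/3, 5/7, 1`,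
side pairings `T = (1 1; 0 1)`, `δ1 = (14 -3; 35 -7)` (`0 → 3/7`, `2/7 → 1/3`), `δ2 = (19 -6; 35 -11)` (`2/7 → 4/7`, `1/3 → 1/2`), `δ3 = (24 -11; 35 -16)` (`3/7 → 5/7`, `1/2 → 2/3`), `δ4 = (28 -17; 35 -21)` (`4/7 → 1`, `2/3 → 5/7`; `δ1`, `δ4` have determinant seven). The FIVE plane functions are the paths
`F0 = {0 → ∞}`, `F1 = {0 → 2/7}`, `F2 = {2/7 → 1/3}`, `F3 = {3/7 → 1/2}`, `F4 = {4/7 → 2/3}`, and there is ONE relation. The Hecke operator of level `(r, s)` is `Tl l (5^r)`, `l ≠ 5, 7` (`l = 2` is allowed). Everything (lists, leading forms, triangular system up to degree 46, ranks 6, 28, 110) was checked by machine.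
-/

set_option autoImplicit false

namespace Pool.Agent.Helper4.T7

open Pool.Agent.Helper14.CV (Homog EqC act Tl StFar StFex)
open Pool.Agent.Helper28.WK (Tw evw)
open Pool.Agent.Helper14.W5 (tr5 Fn5 Tm opL op5 mulL sclL Gd Wd5 dX dY Lw cS M7 nS bb5 S5PlA S5Trm S5Low0 S5Nfa S5Nf S5Exp S5Lw1 S5Bb)
open Pool.Agent.Helper93.TLE (DDE)
open Pool.Agent.Helper28.T7 (HTy SymH)
open Pool.Agent.Helper83.T7C (SHHk SHHkS LBH)

/-! ### Plane functions -/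

/-- TRE (from EDG, PLQ). Values on translated paths: for `γ = (a b; 5c d)` of type `HTy` the path from `γ v` to `γ u` at the point `p` is the path from `v` to `u` at `p γ`: the standard matrix `g0` has determinant one and lower left entry divisible by seven, so `g0 γ` has the type of
`γ` and the coordinates `p γ` (EDG). Model: `Pool/Agent/Helper88/TK/M_Tre.lean`. -/
def TTre : Prop := ∀ (R : Type) (_ : AddCommGroup R) (r s : ℕ) (G : ℤ → ℤ → R), SymH 5 r (s + 1) G →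
  ∀ (a b c d u1 u2 v1 v2 : ℤ), HTy a b (5 * c) d → (u1 ≠ 0 ∨ u2 ≠ 0) → (v1 ≠ 0 ∨ v2 ≠ 0) →
  ∀ (x : ZMod (5 ^ r)) (y : ZMod (5 ^ s)),
  edgeQ (a * u1 + b * u2) (5 * c * u1 + d * u2) (a * v1 + b * v2) (5 * c * v1 + d * v2) G x y =
    tr5 a b c d (edgeQ u1 u2 v1 v2 G) x y

/-- The end point `u1Q / u2Q` of the path `i`. -/
def u1Q : Fin 5 → ℤ := ![1, 2, 1, 1, 2]

/-- See `u1Q`. -/
def u2Q : Fin 5 → ℤ := ![0, 7, 3, 2, 3]

/-- The starting point `v1Q / v2Q` of the path `i`. -/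
def v1Q : Fin 5 → ℤ := ![0, 0, 2, 3, 4]

/-- See `v1Q`. -/
def v2Q : Fin 5 → ℤ := ![1, 1, 7, 7, 7]

/-- The five plane functions of a symbol. -/
noncomputable def pfQ {R : Type} [AddCommGroup R] {q q' : ℕ} (G : ℤ → ℤ → R) (i : Fin 5) :
    ZMod q → ZMod q' → R := fun x y => edgeQ (u1Q i) (u2Q i) (v1Q i) (v2Q i) G x y

/-- The left side of the relation, `F0 - F0∘T - ∑_{i=1..4} (F_i - F_i∘δ_i)`. -/
def DfQ {R : Type} [AddCommGroup R] {q q' : ℕ} (F : Fin 5 → ZMod q → ZMod q' → R) : ZMod q → ZMod q' → R :=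
  fun x y => F 0 x y - tr5 1 1 0 1 (F 0) x y - (F 1 x y - tr5 14 (-3) 7 (-7) (F 1) x y) -
    (F 2 x y - tr5 19 (-6) 7 (-11) (F 2) x y) - (F 3 x y - tr5 24 (-11) 7 (-16) (F 3) x y) -
    (F 4 x y - tr5 28 (-17) 7 (-21) (F 4) x y)

/-- The relation between the five functions. -/
def RelQ {R : Type} [AddCommGroup R] {q q' : ℕ} (F : Fin 5 → ZMod q → ZMod q' → R) : Prop :=
  ∀ x y, DfQ F x y = 0

/-- REL (from TRE). The plane functions of a symbol satisfy the relation: with `[z]` for `G(g z)`: `F0(p) - F0(pT) = [1] - [0]`; `F1(p) - F1(pδ1) = ([2/7] - [0]) - ([1/3] - [3/7])`; `F2(p) - F2(pδ2) = ([1/3] - [2/7]) - ([1/2] - [4/7])`; `F3(p) - F3(pδ3) = ([1/2] - [3/7]) - ([2/3] - [5/7])`;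
`F4(p) - F4(pδ4) = ([2/3] - [4/7]) - ([5/7] - [1])`: the last four add up to `[1] - [0]`. (TRE at the vectors; vectors up to scalars by `Homog`: `δ1 (0, 1) = (-3, -7)`, `δ1 (2, 7) = (7, 21)`, `δ4 (4, 7) = (-7, -7)`, `δ4 (2, 3) = (5, 7)` etc.) Model: `Pool/Agent/Helper88/TK/M_Rel.lean`. -/
def TRel : Prop := ∀ (R : Type) (_ : AddCommGroup R) (r s : ℕ) (G : ℤ → ℤ → R),
  SymH 5 r (s + 1) G → RelQ (fun i => (pfQ G i : ZMod (5 ^ r) → ZMod (5 ^ s) → R))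

/-- The value of `V` at the product `(a b; c d) (p q; r s)`. -/
def mV {R : Type} (V : ℤ → ℤ → ℤ → ℤ → R) (a b c d p q r s : ℤ) : R :=
  V (a * p + b * r) (a * q + b * s) (c * p + d * r) (c * q + d * s)

/-- The properties of the functions `V` (the value of the path `g{0, ∞}`) and `B` (the value of the path `g{0, 1/2}`) on the matrices `g = (a b; c d)` of determinant one with `7 ∣ c`. -/
def VBP {R : Type} [AddCommGroup R] (r s : ℕ) (F : Fin 5 → ZMod (5 ^ r) → ZMod (5 ^ s) → R)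
    (V B : ℤ → ℤ → ℤ → ℤ → R) : Prop :=
  (∀ a b c d : ℤ, a * d - b * c = 1 → (7 : ℤ) ∣ c → V (-a) (-b) (-c) (-d) = V a b c d ∧ B (-a) (-b) (-c) (-d) = B a b c d) ∧
  (∀ a b c d : ℤ, a * d - b * c = 1 → (7 : ℤ) ∣ c →
    B a b c d + mV B a b c d 3 (-1) 7 (-2) + mV B a b c d 2 (-1) 7 (-3) = 0) ∧
  (∀ a b c d : ℤ, a * d - b * c = 1 → (7 : ℤ) ∣ c →
    (mV V a b c d 2 (-1) 7 (-3) - mV B a b c d 2 (-1) 7 (-3) - mV V a b c d 2 1 7 4) +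
    (mV V a b c d 3 (-2) 14 (-9) - mV B a b c d 3 (-2) 14 (-9) - mV V a b c d 3 1 14 5) +
    (mV V a b c d 1 (-1) 7 (-6) - mV B a b c d 1 (-1) 7 (-6) - mV V a b c d 1 0 7 1) = 0) ∧
  (∀ α β γ δ a b c d : ℤ, α * δ - β * γ = 1 → (7 : ℤ) ∣ γ → (5 : ℤ) ^ r ∣ β → (5 : ℤ) ^ (s + 1) ∣ γ →
    a * d - b * c = 1 → (7 : ℤ) ∣ c →
    V (α * a + β * c) (α * b + β * d) (γ * a + δ * c) (γ * b + δ * d) = V a b c d ∧
    B (α * a + β * c) (α * b + β * d) (γ * a + δ * c) (γ * b + δ * d) = B a b c d) ∧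
  (∀ α β γ δ a b c d k1 k2 k3 k4 : ℤ, 7 * α * δ - β * γ = 1 → (5 : ℤ) ^ r ∣ β → (5 : ℤ) ^ (s + 1) ∣ γ →
    a * d - 7 * b * c = 1 → k1 = 7 * α * b + β * d → k2 = -(α * a + β * c) → k3 = 7 * (γ * b + δ * d) →
    k4 = -(γ * a + 7 * δ * c) →
    V k1 k2 k3 k4 = -V a b (7 * c) d ∧
    B a b (7 * c) d = mV V k1 k2 k3 k4 2 (-1) (-7) 4 - mV B k1 k2 k3 k4 2 (-1) (-7) 4 - V k1 k2 k3 k4) ∧
  (∀ (x : ZMod (5 ^ r)) (y : ZMod (5 ^ s)) (a b c d : ℤ), a * d - b * (5 * c) = 1 → (7 : ℤ) ∣ c →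
    (b : ZMod (5 ^ r)) = x * a → (c : ZMod (5 ^ s)) = y * d →
    V a b (5 * c) d = F 0 x y ∧
    mV V a b (5 * c) d 2 (-1) 7 (-3) - mV B a b (5 * c) d 2 (-1) 7 (-3) = F 1 x y ∧
    -mV V a b (5 * c) d 2 (-1) 7 (-3) = F 2 x y ∧
    -mV V a b (5 * c) d 3 (-1) 7 (-2) = F 3 x y ∧
    mV B a b (5 * c) d 4 (-3) 7 (-5) - mV V a b (5 * c) d 4 (-3) 7 (-5) = F 4 x y)

/-- EXA (from TRM). The functions `V`, `B` of a solution `F` of the relation. DEFINITION, for all `g = (a b; c d)` of type `HTy` (both types; or for all matrices with determinant prime to `5`): for `γ' = (a b; 5c' d)` let `p(γ') = (b/a, c'/d)`; classes `t = c/d` modulo `5`.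
`V`: `t = 0`: `F0(p(g))`; `t = 1`: `-F2(p(g γ⁻²))`; `t = 4`: `-F3(p(g γ⁻¹))`; `t = ∞, 3, 2`: `-V(g S)` (`S` maps these classes to `0, 1, 4`, in this order; `t ↦ -2/t`).
`B`: `t = 0`: `(F1 + F2 - F1∘δ1 + F3)(p(g))`; `t = 4`: `(-F3 + F1∘δ1)(p(g γ⁻¹))`; `t = 1`: `-(F1 + F2)(p(g γ⁻²))`; `t = 3`: `(F4 - F3∘δ3 - F4∘δ4 + F0∘T)(p(g S'⁻¹))`; `t = ∞`: `(F4∘δ4 - F0∘T)(p(g (TS)⁻¹))`; `t = 2`: `(-F4 + F3∘δ3)(p(g (TSγ)⁻¹))` (inverses up to scalars: `γ⁻¹ ~ (-2 1; -7 3)`, `γ⁻² ~ (-3 1; -7 2)`,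
`S'⁻¹ ~ S'`, `TS = (7 -1; 7 0)`, `TSγ = (14 -5; 21 -7)`, `S' = (7 -4; 14 -7)`, `γ² ~ (2 -1; 7 -3)`; `p` does not change under scalars). FACTS for all `g` of type `HTy`: (i) `V(g S) = -V(g)` (`S² = -7`); (ii) `B(g) + B(gγ) + B(gγ²) = 0` (classes `0 → 4 → 1 → 0` and `3 → 2 → ∞ → 3`; sum of the table is zero); (iii) with
`C = V - B`: `C(g S') = -C(g)` (classes `0 ↔ 3`, `1 ↔ 4`, `2 ↔ ∞`): for `t = 0` the sum `C(g) + C(gS')` is `DfQ F` at `p(g)` (`V(gS') = -V(g (4 1; 7 2)) = F2(pδ2)` because `S'S ~ (4 1; 7 2)` and `(4 1; 7 2) γ⁻² ~ δ2`); for `t = 1`: `C(g) = F1(p(gγ⁻²))`, `C(gS') = -F1(p(g S' γ⁻¹ δ1))`, `S'γ⁻¹δ1 ~ γ⁻²`; for `t = ∞`: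
`C(g) = -F4(p(g(TS)⁻¹ δ4))`, for `t = 2`: `V(g) = F3(p(g(TSγ)⁻¹ δ3))`, `C(g) = F4(p(g(TSγ)⁻¹))`; by symmetry (`S'² = -7`) one class of each pair is enough. Then `VBP`: first, third of (ii): second. Third: with `ε = (5 -1; 21 -4)` (`ε² ~ (4 -1; 21 -5)`, `ε³ ~ 1`) the three brackets are `C(hγ²) - V(h (2 1; 7 4))` for `h = g, gε, gε²`;
`C(hγ²) = -C(hγ²S') = -V(hγ²S') + B(hγ²S')`; the three `B` add up to zero by (ii) (`γ²S'γ ~ εγ²S'`), and `-V(hγ²S')` is the value `V(h (7 · ...))` with `V(hεγ²S') = -V(h(2 1; 7 4))` by (i) (`εγ²S'S ~ (2 1; 7 4)`): the `V` cancel. Fourth: left multiplication does not change class and coordinates. Fifth: `k = γ' g S/7` for `γ' = (7α β; 7γ 7δ)`,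
`g = (a b; 7c d)`: `V(k) = V(γ'gS) = -V(g)`; `k (2 -1; -7 4) ~ γ' g S'`: `C(γ'gS') = -C(γ'g)`, that is `C(k (2 -1; -7 4)) = -V(γ'g) + B(γ'g) = V(k) + B(g)` (scalars do not matter). Sixth: `p(g) = (x, y)`, classes of `gγ²` (`1`), `gγ` (`4`), `g (4 -3; 7 -5)` (class `2`, `~ TSγ` up to the group: `C(g (4 -3; 7 -5)) = -F4(p)`:
`(4 -3; 7 -5) S' ~ (14 -5; 21 -7)·(-1)` has class `∞` or use (iii) for the class `2`: `g (4 -3; 7 -5)` has determinant one; `(4 -3; 7 -5) (TSγ)⁻¹` is of type two). Model: `Pool/Agent/Helper2/TK/M_ExA.lean`. All matrix identities up to scalars are checked by machine. -/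
def TExA : Prop := ∀ (R : Type) (_ : AddCommGroup R) (r s : ℕ)
  (F : Fin 5 → ZMod (5 ^ r) → ZMod (5 ^ s) → R), RelQ F →
  ∃ V B : ℤ → ℤ → ℤ → ℤ → R, VBP r s F V B

/-- EXB (from PLQ, FEX, FAR; the functions `V`, `B` are given by their properties `VBP`). Every solution of the relation comes from a symbol. Define `E a b c d` (the value of the path from `b/d` to `a/c`, determinant one) by the class `t = c/d` modulo `7`: `7 ∣ c`: `V a b c d`; `7 ∣ d`: `-V b (-a) d (-c)`; `c ≡ -d`: `-V(a+b, -a; c+d, -c) + V(a+b, b; c+d, d)`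
(through the mediant); `c ≡ d`: `V(a-b, b; c-d, d) - V(a-b, a; c-d, c)` (through `(a-b)/(c-d)`); `c ≡ 2d`: `B(g (1 0; -2 1))`; `c ≡ 3d`: `-E(b, -a; d, -c)` (class `2`); `c ≡ 4d`: with `h = g (1 0; -4 1)`: `V(h (2 -1; 7 -3)) - B(h (2 -1; 7 -3)) - V(h (2 1; 7 4))` (the path `h{0 → 2/7 → 1/4}`); `c ≡ 5d`: `-E(b, -a; d, -c)` (class `4`).
Sign invariance and orientation `E b (-a) d (-c) = -E a b c d` clear. TRIANGLE relation `E a b c d = E a (a+b) c (c+d) + E (a+b) b (c+d) d`: classes `0, ∞, 6`: definition; class `2`: second property (`B` triangle) at `g (1 0; -2 1)`; class `4`: third property at `h = g (1 0; -4 1)` (vertices `h0, h¼, h⅕`); classes `1, 3, 5` (one orbit): `E` of class `4` is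
the sum of a class `3` and a class `1` path: `h{0 → 1/3 → 1/4}`, `{0 → 1/3} = -B(hγ²) `, `{1/3 → 1/4} = V(h (2 -1; 7 -3)) - V(h (2 1; 7 4))` (mediant `2/7`). FEX gives `G`. For the matrices of the group `G∘γ' - G` has equal values at both ends of the edges `g{0, ∞}` and `g{0, 1/2}` (`g` of determinant one, `7 ∣ c`) by the fourth and the
fifth property (`V(kM) - B(kM) = G(γ'g½) - G(γ'g∞)` for `M = (2 -1; -7 4)`, `V(k) = G(γ'g0) - G(γ'g∞)`), so of all Farey edges (by the classes above): constant by FAR. `pfQ G i = F i`: sixth property at the standard matrix (PLQ): the paths are `g{0, ∞}`; `V - B` at `gγ²`: `2/7 - 0`; `-V(gγ²)`: `1/3 - 2/7`; `-V(gγ)`: `1/2 - 3/7`; `B - V` at `g (4 -3; 7 -5)`: `2/3 - 4/7`.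
Model: `Pool/Agent/Helper67/TK/M_ExB.lean`. -/
def TExB : Prop := ∀ (R : Type) (_ : AddCommGroup R) (r s : ℕ)
  (F : Fin 5 → ZMod (5 ^ r) → ZMod (5 ^ s) → R) (V B : ℤ → ℤ → ℤ → ℤ → R), VBP r s F V B →
  ∃ G : ℤ → ℤ → R, SymH 5 r (s + 1) G ∧ ∀ i, pfQ G i = F i

/-- EX (from EXA, EXB; proved below). -/
def TEx : Prop := ∀ (R : Type) (_ : AddCommGroup R) (r s : ℕ)
  (F : Fin 5 → ZMod (5 ^ r) → ZMod (5 ^ s) → R), RelQ F →
  ∃ G : ℤ → ℤ → R, SymH 5 r (s + 1) G ∧ ∀ i, pfQ G i = F i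

theorem hEx (ha : TExA) (hb : TExB) : TEx := by
  intro R _ r s F hF
  obtain ⟨V, B, h⟩ := ha R _ r s F hF
  exact hb R _ r s F V B h

/-- UNI (from EDG, PLQ, FAR). A symbol with `F0 = ... = F4 = 0` is constant. For `γ' = (a b; 5c d)` of type `HTy` (any plane point) the values of `G` at `γ'z` for the ten vertices `z = ∞, 0, 2/7, 1/3, 3/7, 1/2, 4/7, 2/3, 5/7, 1` of the polygon are equal: EDG for the five paths at `γ'`, and at `γ'δ1` (`3/7 = δ1 0`, `1/3 = δ1 2/7`),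
`γ'δ2` (`4/7`, `1/2`), `γ'δ3` (`5/7`, `2/3`), `γ'δ4` (`1`, `5/7`), `γ'T` (`∞`, `1`), divided by `7` if both factors have type two. For `g` of type `HTy` this gives `G(g∞) = G(g0)` and `G(g½) = G(g0)` by the classes as in EXA (`t = 0`: `γ' = g`; `t = 4`: `γ' = gγ⁻¹`, `g0, g½, g∞ = γ'{1/2, 1/3, 3/7}`; `t = 1`: `γ' = gγ⁻²`: `γ'{1/3, 0, 2/7}`;
`t = 3`: `γ' = gS'⁻¹`: `γ'{4/7, ∞, 1/2}`; `t = ∞`: `γ' = g(TS)⁻¹`: `γ'{∞, 5/7, 1}`; `t = 2`: `γ' = g(TSγ)⁻¹`: `γ'{5/7, 4/7, 2/3}`). Farey edges `(a b; c d)` by the class `c/d` modulo `7` as in EXB. FAR. Model: `Pool/Agent/Helper77/TK/M_Uni.lean`. -/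
def TUni : Prop := ∀ (R : Type) (_ : AddCommGroup R) (r s : ℕ) (G : ℤ → ℤ → R),
  SymH 5 r (s + 1) G → (∀ i, (pfQ G i : ZMod (5 ^ r) → ZMod (5 ^ s) → R) = 0) → EqC G 0

/-- HKB. Hecke sums for balanced levels `(r, s)` (from SHHk, SHHkS of `Helper83/T7C/StB.lean`, proved). Model: `Pool/Agent/Helper99/TK/M_HkB.lean`. -/
def THkB : Prop := ∀ (R : Type) (_ : AddCommGroup R) (r s l : ℕ) (G : ℤ → ℤ → R), l.Prime →
  l ≠ 5 → l ≠ 7 → SymH 5 r s G → SymH 5 r s (Tl l (5 ^ r) G) ∧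
  ∀ δ : Fin (l + 1) → Matrix (Fin 2) (Fin 2) ℤ,
  (∀ P, (δ P).det = l) → (∀ P, (5 : ℤ) ^ r ∣ δ P 0 1) → (∀ P, 7 * (5 : ℤ) ^ s ∣ δ P 1 0) →
  (∀ P P', P ≠ P' → ¬ ∀ i j, (l : ℤ) ∣ (δ P * (δ P').adjugate) i j) →
  EqC (fun p q => ∑ P, G (δ P 0 0 * p + δ P 0 1 * q) (δ P 1 0 * p + δ P 1 1 * q)) (Tl l (5 ^ r) G)

/-- HKF (from HKB, EDG, PLQ). Hecke formula on the plane for the path from `v` to `u`. `J` is a complete system of residues modulo `l`. Model: `Pool/Agent/Helper9/TK/M_HkF.lean`. -/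
def THkF : Prop := ∀ (R : Type) (_ : AddCommGroup R) (r s l : ℕ) (G : ℤ → ℤ → R) (J : Finset ℤ),
  l.Prime → l ≠ 5 → l ≠ 7 → SymH 5 r (s + 1) G → J.card = l →
  (∀ j ∈ J, ∀ j' ∈ J, (l : ℤ) ∣ j - j' → j = j') →
  ∀ (u1 u2 v1 v2 : ℤ), (u1 ≠ 0 ∨ u2 ≠ 0) → (v1 ≠ 0 ∨ v2 ≠ 0) → ∀ (x : ZMod (5 ^ r)) (y : ZMod (5 ^ s)),
  edgeQ u1 u2 v1 v2 (Tl l (5 ^ r) G) x y =
    tr5 1 0 0 l (edgeQ (l * u1) u2 (l * v1) v2 G) x y +
    ∑ j ∈ J, tr5 l (-j) 0 1 (edgeQ (u1 + j * u2) (l * u2) (v1 + j * v2) (l * v2) G) x y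

/-- RLL. The relation as operators (definitions only). Model: `Pool/Agent/Helper88/TK/M_Rll.lean`. -/
def TRll : Prop := ∀ (r s : ℕ) (F : Fin 5 → Fn5 (5 ^ r) (5 ^ s)), RelQ F →
  ∑ f : Fin 5, opL (relQ f) (F f) = 0

/-- HK (from HKF, TRE, TRM). The rows of `T_l`. (helper4 does these modules, `Helper4/T7/M_Hk*.lean`.) -/
def THkL (l : ℕ) (T : Fin 5 → Fin 5 → List Tm) : Prop := ∀ (r s : ℕ) (G : ℤ → ℤ → ZMod 5), SymH 5 r (s + 1) G → ∀ i : Fin 5,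
  (pfQ (Tl l (5 ^ r) G) i : Fn5 (5 ^ r) (5 ^ s)) = ∑ f : Fin 5, opL (T i f) (pfQ G f)

/-! ### The operators on symbols and the words -/

section

variable {R : Type} [AddCommGroup R]

/-- `U = 3 + 3 T_2 + T_3 + T_11 + 3 T_17 + 2 T_23 + T_2 (3 T_3 + 3 T_13) + 3 T_3²`. -/
def UoQ (m : ℤ) (G : ℤ → ℤ → R) : ℤ → ℤ → R :=
  (3 : ℤ) • G + (3 : ℤ) • Tl 2 m G + Tl 3 m G + Tl 11 m G + (3 : ℤ) • Tl 17 m G + (2 : ℤ) • Tl 23 m G +
    Tl 2 m ((3 : ℤ) • Tl 3 m G + (3 : ℤ) • Tl 13 m G) + (3 : ℤ) • Tl 3 m (Tl 3 m G)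

/-- `A = 3 T_2 + 2 T_3 + T_13 + 4 T_17 + 2 T_19 + 3 T_23 + 2 T_31 + 3 T_37 + T_3²`. -/
def AoQ (m : ℤ) (G : ℤ → ℤ → R) : ℤ → ℤ → R :=
  (3 : ℤ) • Tl 2 m G + (2 : ℤ) • Tl 3 m G + Tl 13 m G + (4 : ℤ) • Tl 17 m G + (2 : ℤ) • Tl 19 m G + (3 : ℤ) • Tl 23 m G +
    (2 : ℤ) • Tl 31 m G + (3 : ℤ) • Tl 37 m G + Tl 3 m (Tl 3 m G)

/-- `B = 4 T_3 + 2 T_11 + 4 T_13 + 4 T_17 + 3 T_19 + 4 T_23 + 3 T_3²`. -/
def BoQ (m : ℤ) (G : ℤ → ℤ → R) : ℤ → ℤ → R :=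
  (4 : ℤ) • Tl 3 m G + (2 : ℤ) • Tl 11 m G + (4 : ℤ) • Tl 13 m G + (4 : ℤ) • Tl 17 m G + (3 : ℤ) • Tl 19 m G +
    (4 : ℤ) • Tl 23 m G + (3 : ℤ) • Tl 3 m (Tl 3 m G)

/-- `V = 3 + 2 T_11 + 3 T_19 + 3 T_23 + T_31 + T_37 + 2 T_41 + 3 T_43 + T_2 A + T_3 B`. -/
def VoQ (m : ℤ) (G : ℤ → ℤ → R) : ℤ → ℤ → R :=
  (3 : ℤ) • G + (2 : ℤ) • Tl 11 m G + (3 : ℤ) • Tl 19 m G + (3 : ℤ) • Tl 23 m G + Tl 31 m G + Tl 37 m G + (2 : ℤ) • Tl 41 m G +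
    (3 : ℤ) • Tl 43 m G + Tl 2 m (AoQ m G) + Tl 3 m (BoQ m G)

/-- The operators at the origin (rows `OLQ`); `O_7` for `c ≥ 7`. -/
def OoQ (c : ℕ) (m : ℤ) (G : ℤ → ℤ → R) : ℤ → ℤ → R :=
  if c = 0 then G
  else if c = 1 then G + Tl 2 m G + (4 : ℤ) • Tl 3 m G
  else if c = 2 then (3 : ℤ) • G + (4 : ℤ) • Tl 2 m G
  else if c = 3 then (2 : ℤ) • Tl 3 m G + (3 : ℤ) • Tl 2 m (Tl 2 m G)
  else if c = 4 then (3 : ℤ) • G + (3 : ℤ) • Tl 2 m G + (4 : ℤ) • Tl 3 m G + Tl 11 m G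
  else if c = 5 then G + (3 : ℤ) • Tl 2 m G + (3 : ℤ) • Tl 3 m G + Tl 11 m G + Tl 13 m G + (2 : ℤ) • Tl 31 m G +
    (2 : ℤ) • Tl 2 m (Tl 2 m G)
  else if c = 6 then (3 : ℤ) • G + (2 : ℤ) • Tl 2 m G + Tl 3 m G + Tl 11 m G + (4 : ℤ) • Tl 13 m G + (3 : ℤ) • Tl 23 m G +
    Tl 31 m G + (4 : ℤ) • Tl 37 m G + (2 : ℤ) • Tl 2 m (Tl 2 m G) + (4 : ℤ) • Tl 2 m (Tl 3 m G) + (2 : ℤ) • Tl 3 m (Tl 3 m G)
  else Tl 2 m G + (2 : ℤ) • Tl 3 m G + (3 : ℤ) • Tl 11 m G + Tl 13 m G + (2 : ℤ) • Tl 17 m G + (2 : ℤ) • Tl 19 m G + Tl 23 m G +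
    (3 : ℤ) • Tl 31 m G + (3 : ℤ) • Tl 2 m (Tl 3 m G) + (2 : ℤ) • Tl 3 m (Tl 3 m G)

/-- The value of the symbol of `G` at the word `O_c U^i V^j` of `{0, ∞}`. -/
def evQ (m : ℤ) (G : ℤ → ℤ → R) (c i j : ℕ) : R :=
  OoQ c m ((UoQ m)^[i] ((VoQ m)^[j] G)) 1 0 - OoQ c m ((UoQ m)^[i] ((VoQ m)^[j] G)) 0 1

end

/-- The exponents of the leading monomial `X^(aQ c + i + 5j) Y^(bQ c + i + j)` of the word `(c, i, j)`: `(0, 0)` for `c = 0, 1, 2`, `(1, 0)`, `(2, 0)`, `(3, 0)` for `c = 3, 4, 5`, `(3, 1)` for `c = 6, 7`. -/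
def aQ (c : ℕ) : ℕ := if c ≤ 2 then 0 else if c ≤ 5 then c - 2 else 3

/-- See `aQ`. -/
def bQ (c : ℕ) : ℕ := if c ≤ 5 then 0 else 1

/-- The degree of the functional `c` at the origin: `0, 0, 0, 1, 2, 3, 4, 4`. -/
def nOQ (c : ℕ) : ℕ := aQ c + bQ c

/-- The degree of the word. -/
def dgQ (c i j : ℕ) : ℕ := aQ c + bQ c + 2 * i + 6 * j

/-- The second coordinate of the order (`(dgQ, rhQ)`, lexicographic, then `c`): the exponent of `Y`. `(dgQ, rhQ, c)` determines `(c, i, j)`. -/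
def rhQ (c i j : ℕ) : ℕ := bQ c + i + j

/-- The coefficient of `X^(n - i) Y^i`, `n = nOQ c`, in the form of the functional `c` on `F_f`. -/
def qOQ (c f i : ℕ) : ℤ :=
  ((([[[1]], [[], [1], [], [], [1]], [[], [], [1], [1]], [[1], [0, 2], [0, 4], [3]],
    [[1, 3], [0, 4, 4], [4, 2, 1], [4, 2, 1], [0, 4]], [[0, 4], [0, 0, 3], [1, 0, 1, 3], [4, 2, 0, 2]],
    [[0, 1, 3, 4]], [[0, 0, 3], [0, 1, 0, 4], [0, 3, 4, 2], [0, 3, 4, 2]]] : List (List (List ℤ))).getD c []).getD f []).getD i 0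

/-- The lowest exponent of `Y` in the form of the functional `c` on `F_f` (`0` if the form is zero). -/
def lwQ (c f : ℕ) : ℕ :=
  (([[0], [0], [0], [0, 1, 1], [0, 1, 0, 0, 1], [1, 2], [1], [2, 1, 1, 1]] : List (List ℕ)).getD c []).getD f 0

/-- The functional `c` on `F_f` as an operator (the value at the origin is taken). -/
def MoQ (c f : ℕ) {q q' : ℕ} : Module.End (ZMod 5) (Fn5 q q') :=
  ∑ i ∈ Finset.range (nOQ c + 1), ((qOQ c f i : ℤ) : ZMod 5) • (dX ^ (nOQ c - i) * dY ^ i)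

/-- The leading operator of `U`. -/
def QoQ {q q' : ℕ} : Module.End (ZMod 5) (Fn5 q q') := dX * dY

/-- The leading operator of `V`. -/
def LoQ {q q' : ℕ} : Module.End (ZMod 5) (Fn5 q q') := dX ^ 5 * dY + (2 : ZMod 5) • (dX ^ 3 * dY ^ 3) + dX * dY ^ 5

/-! ### Certificates (finite computations) -/

/-- CEG. All terms are good. -/
def TCeG : Prop :=
  (∀ i f : Fin 5, (∀ t ∈ T2Q i f, Gd t) ∧ (∀ t ∈ T3Q i f, Gd t) ∧ (∀ t ∈ T11Q i f, Gd t) ∧ (∀ t ∈ T13Q i f, Gd t) ∧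
    (∀ t ∈ T17Q i f, Gd t) ∧ (∀ t ∈ T19Q i f, Gd t) ∧ (∀ t ∈ T23Q i f, Gd t) ∧ (∀ t ∈ T31Q i f, Gd t) ∧
    (∀ t ∈ T37Q i f, Gd t) ∧ (∀ t ∈ T41Q i f, Gd t) ∧ (∀ t ∈ T43Q i f, Gd t)) ∧
  (∀ f : Fin 5, (∀ t ∈ relQ f, Gd t) ∧ (∀ t ∈ mUQ f, Gd t) ∧ (∀ t ∈ mVQ f, Gd t)) ∧
  ∀ c : Fin 8, ∀ t ∈ mOQ c, Gd t

/-- CEU. The coefficients of `U` of weight at most `2`: `(oB-1)(oA-1)` (`w = 0`) on the diagonal. -/
def TCeU : Prop := ∀ i f : Fin 5, ∀ w : Fin 4, ∀ t ∈ M7, t.1 + 4 * t.2.1 + t.2.2 ≤ 2 → (5 : ℤ) ∣ cS (BUQ i f) w t.1 t.2.1 t.2.2 -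
    (if i = f ∧ w = 0 ∧ t = (1, 0, 1) then 1 else 0)

/-- CEV. The coefficients of `V` of weight at most `6`. (By helper4 with the fast check; lists of at most 6631 terms.) -/
def TCeV : Prop := ∀ i f : Fin 5, ∀ w : Fin 4, ∀ t ∈ M7, (5 : ℤ) ∣ cS (BVQ i f) w t.1 t.2.1 t.2.2 -
    (if i = f ∧ w = 0 then (if t = (1, 0, 5) ∨ t = (5, 0, 1) then 1 else if t = (3, 0, 3) then 2 else 0) else 0)

/-- CEO. The coefficients of the functionals at the origin. -/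
def TCeO : Prop := ∀ (c : Fin 8) (f : Fin 5), ∀ i < 5, ∀ j < 5, i + j ≤ nOQ c.val →
  (5 : ℤ) ∣ nS (BOQ c f) i j - (if i + j = nOQ c.val then qOQ c.val f.val j else 0)

/-! ### Leading forms -/

/-- LDU (from TRM, LOW0, NFA, EXP, RLL, CEG, CEU). Leading forms of `U`. Modulo the relation (RLL, `opL (mulL L L') = opL L * opL L'`) the rows are the lists `BUQ`, and EXP with the certificates gives the leading forms. Model: `Pool/Agent/Helper81/TK/M_LdU.lean`. -/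
def TLdU : Prop := ∀ (r s : ℕ) (d : ℤ) (F : Fin 5 → Fn5 (5 ^ r) (5 ^ s)), RelQ F → (∀ i, F i ∈ Wd5 d) →
  ∀ i : Fin 5, (∑ f : Fin 5, opL (ULQ i f) (F f)) - QoQ (F i) ∈ Wd5 (d - 3)

/-- LDV (from TRM, LOW0, NFA, EXP, RLL, CEG, CEV). Leading forms of `V`. Model: `Pool/Agent/Helper16/TK/M_LdV.lean`. -/
def TLdV : Prop := ∀ (r s : ℕ) (d : ℤ) (F : Fin 5 → Fn5 (5 ^ r) (5 ^ s)), RelQ F → (∀ i, F i ∈ Wd5 d) →
  ∀ i : Fin 5, (∑ f : Fin 5, opL (VLQ i f) (F f)) - LoQ (F i) ∈ Wd5 (d - 7)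

/-- OM (from TRM, LOW0, RLL, CEG, CEO). The value of `O_c` at the origin, for functions of degree at most `nOQ c` (`≤ 4`: such functions have periods `5`, Newton expansion at the origin): modulo the relation the first row is `BOQ c`. Model: OMD of `Pool/Agent/Helper71/TK/M_Om.lean` (degree `4`), for all `c` at once. -/
def TOm : Prop := ∀ (r s : ℕ) (c : Fin 8) (F : Fin 5 → Fn5 (5 ^ r) (5 ^ s)), RelQ F → (∀ f, F f ∈ Wd5 (nOQ c.val : ℤ)) →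
  (∑ f : Fin 5, opL (OLQ c f) (F f)) 0 0 = ∑ f : Fin 5, (MoQ c.val f.val (F f)) 0 0

/-- LW1 (from LOW0, NFA, NF, BB). Normal forms by NF: `δ2`, `δ3` have root of unity `1` and are `1 + dX + 3 dY` up to lowering by `2` (`b/a ≡ 1`, `c/d ≡ 3` modulo `5`); `δ1² ~ (13 -3; 35 -8)` has root of unity `-1`; `δ1`, `δ4` have roots of unity `2`, `3` (`d/a` modulo `5`): on `bb5 i j` multiplication by `2^(i+3j)`, `3^(i+3j)` up to lower degree.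
Model: `Pool/Agent/Helper53/TK/M_Lw1.lean`. -/
def TLw1 : Prop := ∀ (r s : ℕ),
  Lw (op5 19 (-6) 7 (-11) - 1 - dX - (3 : ZMod 5) • dY : Module.End (ZMod 5) (Fn5 (5 ^ r) (5 ^ s))) 2 ∧
  Lw (op5 24 (-11) 7 (-16) - 1 - dX - (3 : ZMod 5) • dY : Module.End (ZMod 5) (Fn5 (5 ^ r) (5 ^ s))) 2 ∧
  (∀ (d : ℤ) (F : Fn5 (5 ^ r) (5 ^ s)), F ∈ Wd5 d → Odd d → op5 13 (-3) 7 (-8) F + F ∈ Wd5 (d - 1)) ∧
  (∀ i j : ℕ, i < 5 ^ r → j < 5 ^ s → op5 14 (-3) 7 (-7) (bb5 i j : Fn5 (5 ^ r) (5 ^ s)) -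
    (2 : ZMod 5) ^ (i + 3 * j) • bb5 i j ∈ Wd5 ((i : ℤ) + j - 1)) ∧
  (∀ i j : ℕ, i < 5 ^ r → j < 5 ^ s → op5 28 (-17) 7 (-21) (bb5 i j : Fn5 (5 ^ r) (5 ^ s)) -
    (3 : ZMod 5) ^ (i + 3 * j) • bb5 i j ∈ Wd5 ((i : ℤ) + j - 1))

/-- SUR (from TRM, LOW0, NFA, S5Lw1 (first part), LW1, BB). Solving the inhomogeneous relation below the top degree. By induction (downwards until `Wd5 (-1) = 0`) it is enough to solve up to an error in `Wd5 (e - 1)`. Every `E ∈ Wd5 e`, `e < 5^r + 5^s - 2`, is `dX P + dY Q` with `P, Q ∈ Wd5 (e+1)` (BB). Take `F0 = 2Q - P`, `F2 = 2Q`, the others `0`: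
`F0 - T F0 ≡ -dX F0`, `-(F2 - δ2 F2) ≡ dX F2 + 3 dY F2` modulo `Wd5 (e - 1)`: the sum is `dX P - 2 dX Q + 2 dX Q + 6 dY Q = E`. Model: `Pool/Agent/Helper8/TK/M_Sur.lean` (this is easier). -/
def TSur : Prop := ∀ (r s : ℕ) (e : ℤ) (E : Fn5 (5 ^ r) (5 ^ s)), e < 5 ^ r + 5 ^ s - 2 → E ∈ Wd5 e →
  ∃ F : Fin 5 → Fn5 (5 ^ r) (5 ^ s), (∀ f, F f ∈ Wd5 (e + 1)) ∧ (DfQ F : Fn5 (5 ^ r) (5 ^ s)) = E

/-- The leading coefficients of the solution with index `c`: `F_f ≡ tpQ c f • bb5 A B`. -/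
def tpQ (c : ℕ) (f : Fin 5) : ZMod 5 :=
  if c = 0 then ![1, 0, 0, 0, 0] f else if c = 1 then ![0, 1, 0, 0, 0] f else if c = 2 then ![0, 0, 1, 0, 0] f
  else if c = 3 then ![1, 0, 1, 0, 0] f else if c = 4 then ![0, 2, 1, 0, 3] f else if c = 5 then ![0, 0, 1, 4, 0] f
  else if c = 6 then ![1, 2, 1, 0, 3] f else ![0, 1, 0, 0, 4] f

/-- LED (from TRM, LOW0, NFA, S5Lw1 (first part), LW1, BB, SUR). Solutions of the relation with given leading forms. `A = aQ c + i + 5j`, `B = bQ c + i + j`, `k = A + 3B` modulo `4` is `0` for `c = 0, 1, 2`, `2` for `c = 4, 6, 7`, `1` for `c = 3`, `3` for `c = 5`; `d = A + B`. Start with `F_f = tpQ c f • bb5 A B`; the defect is `E = DfQ F`.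
EVEN `d` (`k = 0, 2`): `F1 - δ1 F1 ≡ t1 (1 - 2^k) bb`, `F4 - δ4 F4 ≡ t4 (1 - 3^k) bb`, zero for `k = 0`, and `2 (t1 + t4) = 0` for `k = 2`; the other parts have degree at most `d - 1`. So `E ∈ Wd5 (d - 1)`, `d - 1` odd: adding `a' = 2 (E' + δ1 E')`, `E' = -E`, to `F1` (`-(a' - δ1 a') ≡ -2 (E' - δ1² E') ≡ -4 E' = E'`) makes it of degree at most `d - 2`.
ODD `d` (`c = 3, 5`; `t1 = t4 = 0`): `E ≡ -t0 dX bb + (t2 + t3) (dX + 3 dY) bb` modulo `Wd5 (d - 2)`: for `c = 3`: `3 dY bb = 3 bb5 A (B-1)` (`A + 3(B - 1) ≡ 2` modulo `4`; zero if `B = 0`), killed by `F1 = z bb5 A (B-1)` (`-(F1 - δ1 F1) ≡ -2 z bb5 A (B-1)`, `z = 4`), up to `Wd5 (d - 2)`; for `c = 5`: `t0 = 0`, `t2 + t3 = 0`: nothing.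
Then `d - 2 < 5^r + 5^s - 2`: subtract the solution of SUR (degree at most `d - 1`). Model: `Pool/Agent/Helper69/TK/M_Led.lean`. -/
def TLed : Prop := ∀ (r s c i j : ℕ), c ≤ 7 → aQ c + i + 5 * j < 5 ^ r → bQ c + i + j < 5 ^ s →
  ∃ F : Fin 5 → Fn5 (5 ^ r) (5 ^ s), RelQ F ∧
    ∀ f : Fin 5, F f - tpQ c f • bb5 (aQ c + i + 5 * j) (bQ c + i + j) ∈ Wd5 ((dgQ c i j : ℤ) - 1)

/-- STP (from HKB, all HK, TRM, CEG, PLQ; `SymH.add` etc.). The operators preserve symbols, and their plane functions are given by the lists (`opL (mulL ..)` for good lists by TRM, sums of products `mm5`). The value of `F0` at the point `(0,0)`: the standard matrix is `1` (`rY5 0 0 0 = 0`). Models: `Pool/Agent/Helper1/TH7/M_Stp.lean` (the same structure), and for the calculus `5`: the first part of `Pool/Agent/Helper51/TK/M_Itr.lean`. -/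
def TStp : Prop := ∀ (r s : ℕ) (G : ℤ → ℤ → ZMod 5), SymH 5 r (s + 1) G →
  (SymH 5 r (s + 1) (UoQ (5 ^ r) G) ∧ ∀ i : Fin 5,
    (pfQ (UoQ (5 ^ r) G) i : Fn5 (5 ^ r) (5 ^ s)) = ∑ f : Fin 5, opL (ULQ i f) (pfQ G f)) ∧
  (SymH 5 r (s + 1) (VoQ (5 ^ r) G) ∧ ∀ i : Fin 5,
    (pfQ (VoQ (5 ^ r) G) i : Fn5 (5 ^ r) (5 ^ s)) = ∑ f : Fin 5, opL (VLQ i f) (pfQ G f)) ∧
  (∀ c : Fin 8, (pfQ (OoQ c.val (5 ^ r) G) 0 : Fn5 (5 ^ r) (5 ^ s)) = ∑ f : Fin 5, opL (OLQ c f) (pfQ G f)) ∧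
  ∀ H : ℤ → ℤ → ZMod 5, (pfQ H 0 : Fn5 (5 ^ r) (5 ^ s)) 0 0 = H 1 0 - H 0 1

/-- ITR (from REL, STP, LOW0, LDU, LDV, OM). Iteration, `m = 5^r`, for a symbol `G` modulo 5 of level `(r, s+1)` whose five functions have degree at most `d`. By LDU, LDV, REL the functions of `U G` have degree at most `d - 2` and are `≡ QoQ F_f(G)` modulo `Wd5 (d - 3)`; for `V`: `d - 6`, `LoQ F_f(G)`, `Wd5 (d - 7)`. So the functions of
`U^i V^j G` have degree at most `d' = d - 2i - 6j`, and are `≡ QoQ^i LoQ^j F_f(G)` modulo `Wd5 (d' - 1)`. OM for `d' ≤ nOQ c` (`MoQ c f` kills degree `nOQ c - 1`). Model: `Pool/Agent/Helper7/TH7/M_Itr.lean` (the same statement with `8` instead of `6`). -/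
def TItr : Prop := ∀ (r s : ℕ) (G : ℤ → ℤ → ZMod 5) (d : ℕ), SymH 5 r (s + 1) G →
  (∀ f : Fin 5, (pfQ G f : Fn5 (5 ^ r) (5 ^ s)) ∈ Wd5 (d : ℤ)) →
  ∀ c i j : ℕ, c ≤ 7 →
  (d < dgQ c i j → evQ (5 ^ r) G c i j = 0) ∧
  (dgQ c i j = d → evQ (5 ^ r) G c i j =
    ∑ f : Fin 5, ((MoQ c f.val * QoQ ^ i * LoQ ^ j : Module.End (ZMod 5) (Fn5 (5 ^ r) (5 ^ s))) (pfQ G f)) 0 0)

/-- TRF (from LOW0, BB). The forms. `MoQ c f * QoQ^i * LoQ^j` is a form of degree `dgQ c i j` in the commuting operators `dX`, `dY`, so it lowers by `dgQ c i j`, and the value of a monomial `dX^p dY^q`, `p + q = A + B`, on `bb5 A B` at the origin is `1` if `(p, q) = (A, B)` and `0` otherwise. `l = lwQ c f` is the lowest exponent of `Y` in the form of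
`MoQ c f` (finite check; if `qOQ c f l = 0` the form is zero: second part), the form is `(q_l X^(n-l) Y^l + Y^(l+1) ...) (XY)^i (X⁵Y + 2X³Y³ + XY⁵)^j`. Model: `Pool/Agent/Helper75/TH7/M_Trf.lean`. -/
def TTrf : Prop := ∀ (r s : ℕ),
  (∀ (c i j : ℕ) (f : Fin 5), c ≤ 7 → Lw (MoQ c f.val * QoQ ^ i * LoQ ^ j : Module.End (ZMod 5) (Fn5 (5 ^ r) (5 ^ s))) (dgQ c i j)) ∧
  (∀ (c : ℕ) (f : Fin 5), c ≤ 7 → qOQ c f.val (lwQ c f.val) = 0 → (MoQ c f.val : Module.End (ZMod 5) (Fn5 (5 ^ r) (5 ^ s))) = 0) ∧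
  ∀ (c i j A B : ℕ) (f : Fin 5), c ≤ 7 → A < 5 ^ r → B < 5 ^ s → A + B = dgQ c i j →
    (B < i + j + lwQ c f.val → ((MoQ c f.val * QoQ ^ i * LoQ ^ j : Module.End (ZMod 5) (Fn5 (5 ^ r) (5 ^ s))) (bb5 A B)) 0 0 = 0) ∧
    (B = i + j + lwQ c f.val → ((MoQ c f.val * QoQ ^ i * LoQ ^ j : Module.End (ZMod 5) (Fn5 (5 ^ r) (5 ^ s))) (bb5 A B)) 0 0 =
      ((qOQ c f.val (lwQ c f.val) : ℤ) : ZMod 5))

/-- TRI (from LOW0, BB, LED, EX, ITR, TRF). Triangular system of symbols modulo 5. For `κ = (c, i, j)` take LED and the symbol `G` of EX; `A = aQ c + i + 5j`, `B = bQ c + i + j`, `d = A + B`, `s = i + j`. By ITR `evQ G κ' = 0` if `dgQ κ' > d`; let `dgQ κ' = d`, `s' = i' + j'`: terms of lower degree are killed (TRF (1)), so the value is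
the sum over `f` of `tpQ c f` times the values of TRF on `bb5 A B`. CLAIM: if `rhQ κ' ≥ rhQ κ` and not (`rhQ κ' = rhQ κ` and `c' = c`) the value is zero, and for `κ' = κ` it is `1, 1, 1, 1, 4, 2, 1, 1` for `c = 0, ..., 7`. (`c' ∈ {3, 5}` only with `c ∈ {3, 5}`: parity of `d`.) `d = 2s + 4j` for `c ≤ 2`, `2 + 2s + 4j` for `c = 4`, `4 + 2s + 4j` for `c = 6, 7`,
`1 + 2s + 4j`, `3 + 2s + 4j` for `c = 3, 5` give the parity of `s' - s`. `c = 0, 1, 2` (one function `F_c`, `B = s`): `c' ≤ 2`: zero form for `c' ≠ c`, else `s' > s` or `κ' = κ`; `c' = 4`: `s' - s` odd, `s' ≥ s`: `B < s'`; `c' = 6, 7`: `s' - s` even, `s' + 1 ≥ s`, so `s' ≥ s`, lowest exponent at least `s' + 1`. `c = 4` (`F1 = 2`, `F2 = 1`, `F4 = 3`, `B = s`):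
`c' = 0, 1, 2`: `s' - s` odd, so `s' > s`; `c' = 4`: `s' > s`, or `κ' = κ`: `F2` gives `4`, `F1`, `F4` have lowest exponent `s + 1`; `c' = 6`: zero on `F1, F2, F4`; `c' = 7`: `s' + 1 - s` even: for `s' + 1 = s` the value is `2·1 + 1·3 = 0`. `c = 6` (`F0 = 1`, `F1 = 2`, `F2 = 1`, `F4 = 3`, `B = s + 1`): `c' = 0, 1, 2`: `s' - s` even, `s' ≥ s + 1`, so `s' ≥ s + 2 > B`;
`c' = 4`: `s' - s` odd: `s' = s + 1`: `1·1 + 1·4 = 0` (`F0`, `F2`; `F1`, `F4` have lowest exponent `s' + 1`); `c' = 6`: `κ' = κ`: `1`; `c' = 7`: `s' = s`: `F0` lowest `s + 2`, `2·1 + 1·3 = 0`. `c = 7` (`F1 = 1`, `F4 = 4`, `B = s + 1`): `c' ≤ 2`: `s' ≥ s + 2`; `c' = 4`: `s' ≥ s + 1`, lowest exponent `s' + 1`; `c' = 6`: zero form; `c' = 7`: `1`. `c = 3` (`F0 = F2 = 1`, `B = s`):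
`c' = 3`: `κ' = κ`: `1` (`F2` has lowest exponent `s + 1`); `c' = 5`: `s' - s` odd, `s' > s`. `c = 5` (`F2 = 1`, `F3 = 4`): `c' = 3`: `s' - s` odd, `s' > s`; `c' = 5`: `κ' = κ`: `1·1 + 4·4 = 2`. Model: `Pool/Agent/Helper36/TH7/M_Tri.lean`. -/
def TTri : Prop := ∀ (r s c i j : ℕ), c ≤ 7 → aQ c + i + 5 * j < 5 ^ r → bQ c + i + j < 5 ^ s →
  ∃ G : ℤ → ℤ → ZMod 5, SymH 5 r (s + 1) G ∧ evQ (5 ^ r) G c i j ≠ 0 ∧
    ∀ c' i' j' : ℕ, c' ≤ 7 → evQ (5 ^ r) G c' i' j' ≠ 0 →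
      (dgQ c' i' j' < dgQ c i j ∨ (dgQ c' i' j' = dgQ c i j ∧
        (rhQ c' i' j' < rhQ c i j ∨ (rhQ c' i' j' = rhQ c i j ∧ c' = c))))

/-! ### Integral symbols and the lower bound -/

/-- LIFP (from TRM). Lifting solutions of the relation to integers. Take any integral lifts of `f`; the defect `E = DfQ` of the lifts is divisible by 5 and has total sum zero over the plane (`p ↦ pT`, `p ↦ pδ_i` are bijections, TRM); `E/5` has total sum zero, and every integral function with sum zero is `DfQ F` for some `F`, because modulo such functions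
`δ_p ≡ δ_(pg)` for `g = T, δ1, ..., δ4`, so also for `B' = (1 0; -35 1) = T⁻¹ δ4 δ2 δ1⁻¹ δ2⁻¹ δ3⁻¹ δ4⁻¹ δ3 δ1` (up to scalars), and the plane is connected under `T` and `B'` (`(x,y) T^z = (x + z, y/(1 + 5zy))`, `(x, y) B'^z = (x/(1 - 35zx), y - 7z)`, `7` is invertible: move to `(0, y')` and then to `(0,0)`). Subtract `5` times this `F`.
Model: `Pool/Agent/Helper89/TK/M_Lifp.lean`. -/
def TLifp : Prop := ∀ (r s : ℕ) (f : Fin 5 → Fn5 (5 ^ r) (5 ^ s)), RelQ f →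
  ∃ F : Fin 5 → ZMod (5 ^ r) → ZMod (5 ^ s) → ℤ, RelQ F ∧
    ∀ i x y, ((F i x y : ℤ) : ZMod 5) = f i x y

/-- LIF (from REL, LIFP, EX, UNI). Lifting symbols: every symbol `g` modulo 5 lifts to an integral symbol `G` with the same `evQ` modulo 5. Model: `Pool/Agent/Helper74/TK/M_Lif.lean`. -/
def TLif : Prop := ∀ (r s : ℕ) (g : ℤ → ℤ → ZMod 5), SymH 5 r (s + 1) g →
  ∃ G : ℤ → ℤ → ℤ, SymH 5 r (s + 1) G ∧
    ∀ c i j : ℕ, ((evQ (5 ^ r) G c i j : ℤ) : ZMod 5) = evQ (5 ^ r) g c i j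

/-- UNB. Back to `Γ₀(7·5^n)` and to complex values. Model: `Pool/Agent/Helper79/TK/M_Unb.lean`. -/
def TUnb : Prop := ∀ (r s : ℕ) (G : ℤ → ℤ → ℤ), SymH 5 r s G →
  SymH 5 0 (r + s) (fun p q => ((G (5 ^ r * p) q : ℤ) : ℂ)) ∧
    ∀ c i j : ℕ, evQ 1 (fun p q => ((G (5 ^ r * p) q : ℤ) : ℂ)) c i j = ((evQ (5 ^ r) G c i j : ℤ) : ℂ)

/-- The dimension of the new symbols of level `7·5^n` (`W = -1`, `* = +1`), `n ≥ 3`. -/
def ddQ (n : ℕ) : ℕ :=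
  if n % 2 = 1 then 16 * 25 ^ (n / 2 - 1) + 6 * 5 ^ (n / 2 - 1) else 80 * 25 ^ (n / 2 - 2) + 2 * 5 ^ (n / 2 - 2)

/-- CNT. Counting the index sets. `DDE 6 ddQ (2k) = 4t² + 2t`, `DDE 6 ddQ (2k+1) = 20t² + 8t` with `t = 5^(k-1)` (`k ≥ 1`; induction: `6, 28, 110, 540`). First set: the first condition follows from the second; `t(t+1)/2` for `c ≤ 5`, `t(t-1)/2` for `c = 6, 7`. Second set: the
second condition follows from the first; `∑_{j<t} (5t - 5j - a) = 5t(t+1)/2 - a t` for `a = aQ c = 0, 0, 0, 1, 2, 3, 3, 3`. Model: `Pool/Agent/Helper64/TK/M_Cnt.lean`. -/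
def TCnt : Prop :=
  (∀ k : ℕ, 1 ≤ k → ((Finset.range 8 ×ˢ Finset.range (5 ^ k) ×ˢ Finset.range (5 ^ k)).filter
    fun t : ℕ × ℕ × ℕ => aQ t.1 + t.2.1 + 5 * t.2.2 < 5 ^ k ∧ bQ t.1 + t.2.1 + t.2.2 < 5 ^ (k - 1)).card = DDE 6 ddQ (2 * k)) ∧
  (∀ k : ℕ, 1 ≤ k → ((Finset.range 8 ×ˢ Finset.range (5 ^ k) ×ˢ Finset.range (5 ^ k)).filter
    fun t : ℕ × ℕ × ℕ => aQ t.1 + t.2.1 + 5 * t.2.2 < 5 ^ k ∧ bQ t.1 + t.2.1 + t.2.2 < 5 ^ k).card = DDE 6 ddQ (2 * k + 1))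

/-- LB from TRI, LIF, UNB, CNT. As in TH7 (lexicographic order of `(dgQ, rhQ, c)`, which determines the index); the set of all `K` with `evw 1 ls K = 0` for all
words is stable under `Tl l 1`, `l = 2, 3, 11, ..., 43`, sums and integer multiples. Models: `Pool/Agent/Helper89/TH7/M_LBof.lean`, `Pool/Agent/Helper3/TK/M_LBof.lean`. -/
def TLBof : Prop := TTri → TLif → TUnb → TCnt → LBH 5 6 ddQ

end Pool.Agent.Helper4.T7
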